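import Pool.Agent.P8H87.LP.Defs

/-!
# The basic linear program: first properties
-/

set_option autoImplicit false

namespace Pool.Agent.P8H87.LP

open Finset

variable {S : Type} [Fintype S] {k : ℕ} {F : Set ((Fin k → S) → Bool)}

lemma card_pos (I : Inst S k F) : (0 : ℝ) < Fintype.card I.ι := by
  exact_mod_cast Fintype.card_pos

lemma valAt_nonneg (I : Inst S k F) (τ : I.V → S) : 0 ≤ I.valAt τ := by
  unfold Inst.valAt
  refine div_nonneg (sum_nonneg fun i _ => ?_) (card_pos I).le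
  split_ifs <;> norm_num

lemma valAt_le (I : Inst S k F) (τ : I.V → S) : I.valAt τ ≤ 1 := by
  unfold Inst.valAt
  rw [div_le_one (card_pos I)]
  calc _ ≤ ∑ _i : I.ι, (1 : ℝ) := sum_le_sum fun i _ => by split_ifs <;> norm_num
    _ = _ := by simp

lemma valAt_le_val (I : Inst S k F) (τ : I.V → S) : I.valAt τ ≤ I.val :=
  le_ciSup (f := I.valAt) ⟨1, by rintro _ ⟨τ, rfl⟩; exact valAt_le I τ⟩ τ

lemma exists_val [Nonempty S] (I : Inst S k F) : ∃ τ, I.valAt τ = I.val := by
  classical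
  exact exists_eq_ciSup_of_finite

lemma val_nonneg [Nonempty S] (I : Inst S k F) : 0 ≤ I.val := by
  obtain ⟨τ, hτ⟩ := exists_val I
  rw [← hτ]
  exact valAt_nonneg I τ

lemma val_le [Nonempty S] (I : Inst S k F) : I.val ≤ 1 := by
  obtain ⟨τ, hτ⟩ := exists_val I
  rw [← hτ]
  exact valAt_le I τ

lemma inner_le {I : Inst S k F} (s : Sol I) (i : I.ι) :
    ∑ a, (if I.f i a = true then s.z i a else 0) ≤ 1 := by
  rw [← s.z_sum i]
  refine sum_le_sum fun a _ => ?_
  split_ifs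
  · exact le_rfl
  · exact s.z_nonneg i a

lemma value_le {I : Inst S k F} (s : Sol I) : s.value ≤ 1 := by
  unfold Sol.value
  rw [div_le_one (card_pos I)]
  calc _ ≤ ∑ _i : I.ι, (1 : ℝ) := sum_le_sum fun i _ => inner_le s i
    _ = _ := by simp

lemma bdd (I : Inst S k F) : BddAbove {v | ∃ s : Sol I, v = s.value} :=
  ⟨1, by rintro _ ⟨s, rfl⟩; exact value_le s⟩

open scoped Classical in
/-- the solution given by an assignment -/
noncomputable def solOf (I : Inst S k F) (τ : I.V → S) : Sol I where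
  x v σ := if τ v = σ then 1 else 0
  z i a := if a = (fun j => τ (I.e i j)) then 1 else 0
  x_nonneg v σ := by split_ifs <;> norm_num
  z_nonneg i a := by split_ifs <;> norm_num
  x_sum v := by simp
  z_sum i := by simp
  marg i j σ := by
    rw [sum_ite_eq']
    by_cases h : τ (I.e i j) = σ
    · rw [if_pos h, if_pos]
      simp [h]
    · rw [if_neg h, if_neg]
      simp [h]

lemma sol_nonempty [Nonempty S] (I : Inst S k F) : {v | ∃ s : Sol I, v = s.value}.Nonempty :=
  ⟨_, solOf I (fun _ => Classical.arbitrary S), rfl⟩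

lemma value_le_valLP {I : Inst S k F} (s : Sol I) : s.value ≤ I.valLP :=
  le_csSup (bdd I) ⟨s, rfl⟩

lemma valLP_le [Nonempty S] (I : Inst S k F) : I.valLP ≤ 1 :=
  csSup_le (sol_nonempty I) (by rintro _ ⟨s, rfl⟩; exact value_le s)

/-- if all constraints are satisfied fully by the solution -/
lemma valLP_eq_one [Nonempty S] {I : Inst S k F} (s : Sol I)
    (h : ∀ i a, s.z i a ≠ 0 → I.f i a = true) : I.valLP = 1 := by
  refine le_antisymm (valLP_le I) (le_trans (le_of_eq ?_) (value_le_valLP s))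
  unfold Sol.value
  rw [eq_comm, div_eq_one_iff_eq (card_pos I).ne']
  calc _ = ∑ _i : I.ι, (1 : ℝ) := by
        refine sum_congr rfl fun i _ => ?_
        rw [← s.z_sum i]
        refine sum_congr rfl fun a _ => ?_
        by_cases h1 : I.f i a = true
        · rw [if_pos h1]
        · rw [if_neg h1]
          by_contra h2
          exact h1 (h i a (Ne.symm h2))
    _ = _ := by simp

lemma exists_value [Nonempty S] {I : Inst S k F} {c δ : ℝ} (hc : c ≤ I.valLP) (hδ : 1 - c < δ) :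
    ∃ s : Sol I, 1 - δ ≤ s.value := by
  obtain ⟨_, ⟨s, rfl⟩, hs⟩ := exists_lt_of_lt_csSup (sol_nonempty I)
    (show 1 - δ < sSup {v | ∃ s : Sol I, v = s.value} from by
      have : c ≤ sSup {v | ∃ s : Sol I, v = s.value} := hc
      linarith)
  exact ⟨s, hs.le⟩

/-- a satisfiable instance -/
lemma exists_inst [Nonempty S] (h : ¬ ∀ f ∈ F, ∀ a, f a = false) :
    ∃ I : Inst S k F, I.valLP = 1 ∧ I.Arc := by
  push Not at h
  obtain ⟨f, hf, a, ha⟩ := h
  let I : Inst S k F :=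
    { V := Fin k
      ι := Unit
      e := fun _ j => j
      inj := fun _ _ _ h => h
      f := fun _ => f
      mem := fun _ => hf }
  have ha' := Bool.eq_true_of_not_eq_false ha
  refine ⟨I, valLP_eq_one (solOf I a) fun i b hb => ?_, fun v => {a v}, fun v => ⟨_, rfl⟩,
    fun i j σ hσ => ⟨a, ha', hσ.symm, fun l => rfl⟩⟩
  have h1 : b = a := by
    by_contra hne
    exact hb (if_neg hne)
  rw [h1]
  exact ha'

lemma bddBelow [Nonempty S] (c : ℝ) : BddBelow {v | ∃ I : Inst S k F, c ≤ I.valLP ∧ v = I.val} :=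
  ⟨0, by rintro _ ⟨I, -, rfl⟩; exact val_nonneg I⟩

lemma thetaStar_le_val [Nonempty S] {c : ℝ} (h : ¬ ∀ f ∈ F, ∀ a, f a = false) (I : Inst S k F)
    (hI : c ≤ I.valLP) : thetaStar F c ≤ I.val := by
  unfold thetaStar
  rw [if_neg h]
  exact csInf_le (bddBelow c) ⟨I, hI, rfl⟩

lemma le_thetaStar [Nonempty S] {c B : ℝ} (hc : c ≤ 1) (hB : B ≤ 1)
    (h : ¬ (∀ f ∈ F, ∀ a, f a = false) → ∀ I : Inst S k F, c ≤ I.valLP → B ≤ I.val) :
    B ≤ thetaStar F c := by
  unfold thetaStar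
  split_ifs with h0
  · exact hB
  · obtain ⟨I, hI, -⟩ := exists_inst (F := F) h0
    refine le_csInf ⟨_, I, by rw [hI]; exact hc, rfl⟩ ?_
    rintro _ ⟨J, hJ, rfl⟩
    exact h h0 J hJ

lemma thetaStar_nonneg [Nonempty S] {c : ℝ} (hc : c ≤ 1) : 0 ≤ thetaStar F c :=
  le_thetaStar hc zero_le_one fun _ I _ => val_nonneg I

lemma thetaStar_le_one [Nonempty S] {c : ℝ} (hc : c ≤ 1) : thetaStar F c ≤ 1 := by
  by_cases h : ∀ f ∈ F, ∀ a, f a = false
  · unfold thetaStar
    rw [if_pos h]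
  · obtain ⟨I, hI, -⟩ := exists_inst (F := F) h
    exact (thetaStar_le_val h I (by rw [hI]; exact hc)).trans (val_le I)

lemma thetaStar_mono [Nonempty S] {c : ℝ} (hc : c ≤ 1) : thetaStar F c ≤ thetaStar F 1 :=
  le_thetaStar le_rfl (thetaStar_le_one hc) fun h I hI => thetaStar_le_val h I (hc.trans hI)

lemma bddBelow' [Nonempty S] : BddBelow {v | ∃ I : Inst S k F, I.Arc ∧ v = I.val} :=
  ⟨0, by rintro _ ⟨I, -, rfl⟩; exact val_nonneg I⟩

lemma thetaArc_le_val [Nonempty S] (h : ¬ ∀ f ∈ F, ∀ a, f a = false) (I : Inst S k F)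
    (hI : I.Arc) : thetaArc F ≤ I.val := by
  unfold thetaArc
  rw [if_neg h]
  exact csInf_le bddBelow' ⟨I, hI, rfl⟩

lemma le_thetaArc [Nonempty S] {B : ℝ} (hB : B ≤ 1)
    (h : ¬ (∀ f ∈ F, ∀ a, f a = false) → ∀ I : Inst S k F, I.Arc → B ≤ I.val) :
    B ≤ thetaArc F := by
  unfold thetaArc
  split_ifs with h0
  · exact hB
  · obtain ⟨I, -, hI⟩ := exists_inst (F := F) h0
    refine le_csInf ⟨_, I, hI, rfl⟩ ?_
    rintro _ ⟨J, hJ, rfl⟩
    exact h h0 J hJ

lemma thetaArc_nonneg [Nonempty S] : 0 ≤ thetaArc F :=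
  le_thetaArc zero_le_one fun _ I _ => val_nonneg I

lemma thetaArc_le_one [Nonempty S] : thetaArc F ≤ 1 := by
  by_cases h : ∀ f ∈ F, ∀ a, f a = false
  · unfold thetaArc
    rw [if_pos h]
  · obtain ⟨I, -, hI⟩ := exists_inst (F := F) h
    exact (thetaArc_le_val h I hI).trans (val_le I)

end Pool.Agent.P8H87.LP
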