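import Pool.Agent.P8H87.LP.Round

/-!
# Bijunctive families
-/

set_option autoImplicit false

namespace Pool.Agent.P8H87.LP

open Finset Filter Topology

variable {k : ℕ}

/-- a conjunction of clauses with two literals: the satisfying tuples are closed under the
majority of three tuples -/
def Bijunctive (f : (Fin k → Bool) → Bool) : Prop :=
  ∀ a b c, f a = true → f b = true → f c = true →
    f (fun j => (a j && b j) || (b j && c j) || (a j && c j)) = true

lemma maj_dec : ∀ x y z c : Bool, (x = c ∧ y = c) ∨ (y = c ∧ z = c) ∨ (x = c ∧ z = c) →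
    ((x && y) || (y && z) || (x && z)) = c := by decide

/-- a tuple all whose pairs of coordinates extend to satisfying tuples is satisfying -/
lemma helly {f : (Fin k → Bool) → Bool} (hf' : Bijunctive f) {c : Fin k → Bool}
    (h0 : ∃ a, f a = true) (h : ∀ i j, ∃ a, f a = true ∧ a i = c i ∧ a j = c j) : f c = true := by
  classical
  have key : ∀ n : ℕ, ∀ J : Finset (Fin k), J.card ≤ n → ∃ a, f a = true ∧ ∀ j ∈ J, a j = c j := by
    intro n
    induction n with
    | zero =>
      intro J hJ
      obtain ⟨a, ha⟩ := h0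
      refine ⟨a, ha, fun j hj => ?_⟩
      rw [card_eq_zero.1 (Nat.le_zero.1 hJ)] at hj
      exact absurd hj (notMem_empty _)
    | succ n ih =>
      intro J hJ
      by_cases h3 : 2 < J.card
      · obtain ⟨p, hp, q, hq, r, hr, hpq, hpr, hqr⟩ := two_lt_card.1 h3
        obtain ⟨a, a1, a2⟩ := ih (J.erase p) (by rw [card_erase_of_mem hp]; omega)
        obtain ⟨b, b1, b2⟩ := ih (J.erase q) (by rw [card_erase_of_mem hq]; omega)
        obtain ⟨d, d1, d2⟩ := ih (J.erase r) (by rw [card_erase_of_mem hr]; omega)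
        refine ⟨_, hf' a b d a1 b1 d1, fun j hj => maj_dec _ _ _ _ ?_⟩
        by_cases e1 : j = p
        · refine Or.inr (Or.inl ⟨b2 j (mem_erase.2 ⟨?_, hj⟩), d2 j (mem_erase.2 ⟨?_, hj⟩)⟩)
          · rw [e1]; exact hpq
          · rw [e1]; exact hpr
        · by_cases e2 : j = q
          · refine Or.inr (Or.inr ⟨a2 j (mem_erase.2 ⟨e1, hj⟩), d2 j (mem_erase.2 ⟨?_, hj⟩)⟩)
            rw [e2]; exact hqr
          · exact Or.inl ⟨a2 j (mem_erase.2 ⟨e1, hj⟩), b2 j (mem_erase.2 ⟨e2, hj⟩)⟩
      · have h4 : J.card = 0 ∨ J.card = 1 ∨ J.card = 2 := by omega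
        rcases h4 with h4 | h4 | h4
        · obtain ⟨a, ha⟩ := h0
          refine ⟨a, ha, fun j hj => ?_⟩
          rw [card_eq_zero.1 h4] at hj
          exact absurd hj (notMem_empty _)
        · obtain ⟨i, hi⟩ := card_eq_one.1 h4
          obtain ⟨a, a1, a2, -⟩ := h i i
          refine ⟨a, a1, fun j hj => ?_⟩
          rw [hi, mem_singleton] at hj
          rw [hj, a2]
        · obtain ⟨i, l, -, hi⟩ := card_eq_two.1 h4
          obtain ⟨a, a1, a2, a3⟩ := h i l
          refine ⟨a, a1, fun j hj => ?_⟩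
          rw [hi, mem_insert, mem_singleton] at hj
          rcases hj with hj | hj
          · rw [hj, a2]
          · rw [hj, a3]
  obtain ⟨a, a1, a2⟩ := key _ univ le_rfl
  have : a = c := funext fun j => a2 j (mem_univ j)
  rw [← this]
  exact a1

/-- the rounding with the threshold `t` -/
noncomputable def rnd (t : ℝ) (x : Bool → ℝ) (σ : Bool) : ℝ :=
  if 1 / 2 + t < x true then (if σ = true then 1 else 0)
  else if x true < 1 / 2 - t then (if σ = true then 0 else 1) else 1 / 2

lemma rnd_dist (t : ℝ) (x : Bool → ℝ) : IsDist (rnd t x) := by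
  by_cases h1 : 1 / 2 + t < x true
  · constructor
    · intro σ
      cases σ <;> simp only [rnd, if_pos h1] <;> norm_num
    · rw [Fintype.sum_bool]
      simp only [rnd, if_pos h1]
      norm_num
  · by_cases h2 : x true < 1 / 2 - t
    · constructor
      · intro σ
        cases σ <;> simp only [rnd, if_neg h1, if_pos h2] <;> norm_num
      · rw [Fintype.sum_bool]
        simp only [rnd, if_neg h1, if_pos h2]
        norm_num
    · constructor
      · intro σ
        simp only [rnd, if_neg h1, if_neg h2]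
        norm_num
      · rw [Fintype.sum_bool]
        simp only [rnd, if_neg h1, if_neg h2]
        norm_num

section main

variable {f : (Fin k → Bool) → Bool} {z : (Fin k → Bool) → ℝ} {v : Fin k → ℝ} {t : ℝ}

/-- the weight of the tuples with two given values -/
noncomputable def W (z : (Fin k → Bool) → ℝ) (i j : Fin k) (p q : Bool) : ℝ :=
  ∑ a ∈ univ.filter (fun a : Fin k → Bool => a i = p ∧ a j = q), z a

/-- the weight of the tuples with a given value -/
noncomputable def U (z : (Fin k → Bool) → ℝ) (i : Fin k) (p : Bool) : ℝ :=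
  ∑ a ∈ univ.filter (fun a : Fin k → Bool => a i = p), z a

lemma U_split (i j : Fin k) (p q : Bool) : U z i p = W z i j p q + W z i j p (!q) := by
  unfold U W
  rw [← sum_filter_add_sum_filter_not (univ.filter fun a : Fin k → Bool => a i = p)
    (fun a => a j = q), filter_filter, filter_filter]
  congr 1
  refine sum_congr ?_ fun _ _ => rfl
  ext a
  simp only [mem_filter, mem_univ, true_and]
  cases a j <;> cases q <;> simp

lemma W_symm (i j : Fin k) (p q : Bool) : W z i j p q = W z j i q p := by
  unfold W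
  refine sum_congr ?_ fun _ _ => rfl
  ext a
  simp only [mem_filter, mem_univ, true_and]
  exact and_comm

lemma U_not (h1 : ∑ a, z a = 1) (i : Fin k) (p : Bool) : U z i p + U z i (!p) = 1 := by
  unfold U
  rw [← h1, ← sum_filter_add_sum_filter_not univ (fun a : Fin k → Bool => a i = p)]
  congr 1
  refine sum_congr ?_ fun _ _ => rfl
  ext a
  simp only [mem_filter, mem_univ, true_and]
  cases a i <;> cases p <;> simp

lemma W_nonneg (h0 : ∀ a, 0 ≤ z a) (i j : Fin k) (p q : Bool) : 0 ≤ W z i j p q :=
  sum_nonneg fun a _ => h0 a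

lemma W_formula (h1 : ∑ a, z a = 1) (i j : Fin k) (p q : Bool) :
    W z i j p q = U z i p + U z j q - 1 + W z i j (!p) (!q) := by
  have e1 := U_split (z := z) i j p q
  have e2 := U_split (z := z) j i (!q) p
  have e3 := U_not h1 j q
  rw [W_symm j i, W_symm j i] at e2
  linarith

lemma exists_of_W (h2 : ∀ a, z a ≠ 0 → f a = true) {i j : Fin k} {p q : Bool}
    (h : W z i j p q ≠ 0) : ∃ a, f a = true ∧ a i = p ∧ a j = q := by
  obtain ⟨a, ha, hz⟩ := exists_ne_zero_of_sum_ne_zero h
  have := (mem_filter.1 ha).2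
  exact ⟨a, h2 a hz, this.1, this.2⟩

/-- the rounding is exact -/
lemma bij_core (hf' : Bijunctive f) (h0 : ∀ a, 0 ≤ z a) (h1 : ∑ a, z a = 1)
    (h2 : ∀ a, z a ≠ 0 → f a = true) (ht0 : 0 ≤ t) (ht : 8 * t * (k : ℝ) ^ 2 < 1)
    (hv : ∀ j, U z j true < 1 / 2 - t ∨ 1 / 2 + t < U z j true ∨
      (1 / 2 - t < U z j true ∧ U z j true < 1 / 2 + t)) :
    ∃ a b : Fin k → Bool, f a = true ∧ f b = true ∧ ∀ j,
      (1 / 2 + t < U z j true → a j = true ∧ b j = true) ∧
      (U z j true < 1 / 2 - t → a j = false ∧ b j = false) ∧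
      (1 / 2 - t < U z j true → U z j true < 1 / 2 + t → b j = !(a j)) := by
  classical
  obtain ⟨M, hM⟩ : ∃ M : Finset (Fin k), M = univ.filter fun j =>
    1 / 2 - t < U z j true ∧ U z j true < 1 / 2 + t := ⟨_, rfl⟩
  have hMU : ∀ j ∈ M, ∀ p, 1 / 2 - t < U z j p := by
    intro j hj p
    rw [hM] at hj
    have h3 := (mem_filter.1 hj).2
    have h4 := U_not h1 j true
    cases p
    · simp only [Bool.not_true] at h4
      linarith
    · exact h3.1
  have hz0 : ∃ a, f a = true := by
    obtain ⟨a, -, ha⟩ := exists_ne_zero_of_sum_ne_zero (by rw [h1]; exact one_ne_zero)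
    exact ⟨a, h2 a ha⟩
  -- a tuple of the support whose complement is good on the pairs
  obtain ⟨w, hw, hwM⟩ : ∃ w, 0 < z w ∧ ∀ i ∈ M, ∀ j ∈ M, W z i j (!(w i)) (!(w j)) ≠ 0 := by
    by_contra hcon
    push Not at hcon
    have h3 : (1 : ℝ) ≤ ∑ i ∈ M, ∑ j ∈ M, ∑ p : Bool, ∑ q : Bool,
        (if W z i j (!p) (!q) = 0 then W z i j p q else 0) := by
      have h4 : ∀ w, z w ≤ ∑ i ∈ M, ∑ j ∈ M, ∑ p : Bool, ∑ q : Bool,
          (if W z i j (!p) (!q) = 0 then (if w i = p ∧ w j = q then z w else 0) else 0) := by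
        intro w
        have hnn : ∀ i j p q, (0 : ℝ) ≤
            (if W z i j (!p) (!q) = 0 then (if w i = p ∧ w j = q then z w else 0) else 0) := by
          intro i j p q
          have := h0 w
          split_ifs
          · exact this
          · exact le_rfl
          · exact le_rfl
        rcases (h0 w).eq_or_lt with h5 | h5
        · rw [← h5]
          refine sum_nonneg fun i _ => sum_nonneg fun j _ => sum_nonneg fun p _ =>
            sum_nonneg fun q _ => ?_
          have := hnn i j p q
          rwa [← h5] at this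
        · obtain ⟨i, hi, j, hj, h6⟩ := hcon w h5
          calc z w = (if W z i j (!(w i)) (!(w j)) = 0 then
                (if w i = w i ∧ w j = w j then z w else 0) else 0) := by
                  rw [if_pos h6, if_pos ⟨rfl, rfl⟩]
            _ ≤ ∑ q : Bool, (if W z i j (!(w i)) (!q) = 0 then
                (if w i = w i ∧ w j = q then z w else 0) else 0) :=
                  single_le_sum (f := fun q => (if W z i j (!(w i)) (!q) = 0 then
                    (if w i = w i ∧ w j = q then z w else 0) else 0))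
                    (fun q _ => hnn i j (w i) q) (mem_univ (w j))
            _ ≤ ∑ p : Bool, ∑ q : Bool, (if W z i j (!p) (!q) = 0 then
                (if w i = p ∧ w j = q then z w else 0) else 0) :=
                  single_le_sum (f := fun p => ∑ q : Bool, (if W z i j (!p) (!q) = 0 then
                    (if w i = p ∧ w j = q then z w else 0) else 0))
                    (fun p _ => sum_nonneg fun q _ => hnn i j p q) (mem_univ (w i))
            _ ≤ ∑ j ∈ M, ∑ p : Bool, ∑ q : Bool, (if W z i j (!p) (!q) = 0 then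
                (if w i = p ∧ w j = q then z w else 0) else 0) :=
                  single_le_sum (f := fun j => ∑ p : Bool, ∑ q : Bool,
                    (if W z i j (!p) (!q) = 0 then
                    (if w i = p ∧ w j = q then z w else 0) else 0))
                    (fun j _ => sum_nonneg fun p _ => sum_nonneg fun q _ => hnn i j p q) hj
            _ ≤ _ := single_le_sum (f := fun i => ∑ j ∈ M, ∑ p : Bool, ∑ q : Bool,
                    (if W z i j (!p) (!q) = 0 then
                    (if w i = p ∧ w j = q then z w else 0) else 0))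
                    (fun i _ => sum_nonneg fun j _ => sum_nonneg fun p _ =>
                      sum_nonneg fun q _ => hnn i j p q) hi
      calc (1 : ℝ) = ∑ w, z w := h1.symm
        _ ≤ ∑ w, ∑ i ∈ M, ∑ j ∈ M, ∑ p : Bool, ∑ q : Bool,
          (if W z i j (!p) (!q) = 0 then (if w i = p ∧ w j = q then z w else 0) else 0) :=
            sum_le_sum fun w _ => h4 w
        _ = _ := by
          rw [sum_comm]
          refine sum_congr rfl fun i _ => ?_
          rw [sum_comm]
          refine sum_congr rfl fun j _ => ?_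
          rw [sum_comm]
          refine sum_congr rfl fun p _ => ?_
          rw [sum_comm]
          refine sum_congr rfl fun q _ => ?_
          split_ifs
          · unfold W
            rw [sum_filter]
          · simp
    have h4 : ∀ i ∈ M, ∀ j ∈ M, ∀ p q : Bool,
        (if W z i j (!p) (!q) = 0 then W z i j p q else 0) ≤ 2 * t := by
      intro i hi j hj p q
      split_ifs with h5
      · have e1 := W_formula h1 i j p q
        have e2 := U_not h1 i p
        have e3 := U_not h1 j q
        have e4 := hMU i hi (!p)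
        have e5 := hMU j hj (!q)
        rw [h5] at e1
        linarith
      · linarith
    have h5 : (1 : ℝ) ≤ M.card * (M.card * (8 * t)) := by
      refine h3.trans ?_
      calc _ ≤ ∑ _i ∈ M, ∑ _j ∈ M, ∑ _p : Bool, ∑ _q : Bool, 2 * t :=
            sum_le_sum fun i hi => sum_le_sum fun j hj => sum_le_sum fun p _ =>
              sum_le_sum fun q _ => h4 i hi j hj p q
        _ = _ := by
          simp only [sum_const, card_univ, Fintype.card_bool, nsmul_eq_mul]
          push_cast
          ring
    have h6 : (M.card : ℝ) ≤ k := by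
      have := card_le_univ M
      rw [Fintype.card_fin] at this
      exact_mod_cast this
    have h7 : (M.card : ℝ) * M.card ≤ (k : ℝ) * k :=
      mul_le_mul h6 h6 (Nat.cast_nonneg _) (Nat.cast_nonneg _)
    nlinarith
  have hlarge : ∀ i j p q, 1 < U z i p + U z j q → W z i j p q ≠ 0 := by
    intro i j p q h3
    have e1 := W_formula h1 i j p q
    have e2 := W_nonneg h0 i j (!p) (!q)
    intro h4
    linarith
  -- the major value
  obtain ⟨g, hg⟩ : ∃ g : Fin k → Bool, ∀ j, j ∉ M → 1 / 2 + t < U z j (g j) := by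
    refine ⟨fun j => if 1 / 2 + t < U z j true then true else false, fun j hj => ?_⟩
    dsimp only
    split_ifs with h3
    · exact h3
    · have h4 := U_not h1 j true
      simp only [Bool.not_true] at h4
      rcases hv j with h5 | h5 | h5
      · linarith
      · exact absurd h5 h3
      · exact absurd (by rw [hM]; exact mem_filter.2 ⟨mem_univ j, h5⟩) hj
  have main : ∀ c : Fin k → Bool, (∀ j, j ∉ M → c j = g j) →
      (∀ i ∈ M, ∀ j ∈ M, W z i j (c i) (c j) ≠ 0) → f c = true := by
    intro c hc1 hc2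
    refine helly hf' hz0 fun i j => exists_of_W h2 (p := c i) (q := c j) ?_
    by_cases hi : i ∈ M
    · by_cases hj : j ∈ M
      · exact hc2 i hi j hj
      · apply hlarge
        have e1 := hMU i hi (c i)
        have e2 := hg j hj
        rw [hc1 j hj]
        linarith
    · by_cases hj : j ∈ M
      · apply hlarge
        have e1 := hMU j hj (c j)
        have e2 := hg i hi
        rw [hc1 i hi]
        linarith
      · apply hlarge
        have e1 := hg i hi
        have e2 := hg j hj
        rw [hc1 i hi, hc1 j hj]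
        linarith
  have hgv : ∀ j, j ∉ M → (1 / 2 + t < U z j true → g j = true) ∧
      (U z j true < 1 / 2 - t → g j = false) := by
    intro j hj
    have e1 := hg j hj
    have e2 := U_not h1 j true
    simp only [Bool.not_true] at e2
    constructor
    · intro h3
      cases h4 : g j
      · rw [h4] at e1
        linarith
      · rfl
    · intro h3
      cases h4 : g j
      · rfl
      · rw [h4] at e1
        linarith
  refine ⟨fun j => if j ∈ M then w j else g j, fun j => if j ∈ M then !(w j) else g j,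
    main _ (fun j hj => if_neg hj) (fun i hi j hj => ?_),
    main _ (fun j hj => if_neg hj) (fun i hi j hj => ?_), fun j => ⟨fun h3 => ?_, fun h3 => ?_,
      fun h3 h4 => ?_⟩⟩
  · rw [if_pos hi, if_pos hj]
    have h3 : z w ≤ W z i j (w i) (w j) :=
      single_le_sum (f := z) (fun a _ => h0 a) (mem_filter.2 ⟨mem_univ w, rfl, rfl⟩)
    exact (hw.trans_le h3).ne'
  · rw [if_pos hi, if_pos hj]
    exact hwM i hi j hj
  · have hj : j ∉ M := by
      rw [hM]
      intro h4
      have := (mem_filter.1 h4).2
      linarith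
    dsimp only
    rw [if_neg hj, if_neg hj]
    exact ⟨(hgv j hj).1 h3, (hgv j hj).1 h3⟩
  · have hj : j ∉ M := by
      rw [hM]
      intro h4
      have := (mem_filter.1 h4).2
      linarith
    dsimp only
    rw [if_neg hj, if_neg hj]
    exact ⟨(hgv j hj).2 h3, (hgv j hj).2 h3⟩
  · have hj : j ∈ M := by
      rw [hM]
      exact mem_filter.2 ⟨mem_univ j, h3, h4⟩
    dsimp only
    rw [if_pos hj, if_pos hj]

end main

lemma exact_of_pair {f : (Fin k → Bool) → Bool} {a b : Fin k → Bool} (ha : f a = true)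
    (hb : f b = true) {x : Fin k → Bool → ℝ}
    (h : ∀ j σ, x j σ = ((if a j = σ then 1 else 0) + (if b j = σ then 1 else 0)) / 2) :
    Exact f x := by
  classical
  refine ⟨fun c => ((if c = a then 1 else 0) + (if c = b then 1 else 0)) / 2, fun c => ?_,
    fun c hc => ?_, ?_, fun j σ => ?_⟩
  · dsimp only
    split_ifs <;> norm_num
  · by_cases h1 : c = a
    · rw [h1, ha]
    · by_cases h2 : c = b
      · rw [h2, hb]
      · exfalso
        apply hc
        simp [h1, h2]
  · rw [← sum_div, sum_add_distrib]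
    simp
  · have e1 : ∀ v : Fin k → Bool, ∑ c ∈ univ.filter (fun c : Fin k → Bool => c j = σ),
        (if c = v then (1 : ℝ) else 0) = if v j = σ then 1 else 0 := by
      intro v
      rw [sum_ite_eq']
      simp
    have e2 : ∑ c ∈ univ.filter (fun c : Fin k → Bool => c j = σ),
        ((if c = a then (1 : ℝ) else 0) + (if c = b then 1 else 0)) / 2 = x j σ := by
      rw [← sum_div, sum_add_distrib, e1, e1, h]
    refine Eq.trans (sum_congr ?_ fun _ _ => rfl) e2
    ext c
    simp only [mem_filter]

lemma exact_rnd {f : (Fin k → Bool) → Bool} (hf' : Bijunctive f) {x y : Fin k → Bool → ℝ}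
    (hy : Exact f y) {t δ : ℝ} (ht0 : 0 ≤ t) (ht : 8 * t * (k : ℝ) ^ 2 < 1)
    (hxy : ∀ j σ, |x j σ - y j σ| ≤ δ) (hg : ∀ j, ¬ |(|x j true - 1 / 2| - t)| ≤ δ) :
    Exact f (fun j => rnd t (x j)) := by
  obtain ⟨z, z0, zf, z1, zm⟩ := hy
  have hU : ∀ j, U z j true = y j true := by
    intro j
    rw [← zm j true]
    unfold U
    refine sum_congr ?_ fun _ _ => rfl
    ext c
    simp only [mem_filter]
  have key : ∀ j, (1 / 2 + t < x j true → 1 / 2 + t < U z j true) ∧
      (x j true < 1 / 2 - t → U z j true < 1 / 2 - t) ∧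
      (¬ 1 / 2 + t < x j true → ¬ x j true < 1 / 2 - t →
        1 / 2 - t < U z j true ∧ U z j true < 1 / 2 + t) := by
    intro j
    have h1 := abs_le.1 (hxy j true)
    have h2 := hg j
    rw [not_le, lt_abs] at h2
    rw [hU]
    refine ⟨fun h3 => ?_, fun h3 => ?_, fun h3 h4 => ?_⟩
    · rw [abs_of_nonneg (by linarith)] at h2
      rcases h2 with h2 | h2 <;> linarith
    · rw [abs_of_nonpos (by linarith)] at h2
      rcases h2 with h2 | h2 <;> linarith
    · rw [not_lt] at h3 h4
      have h5 : |x j true - 1 / 2| ≤ t := abs_le.2 ⟨by linarith, by linarith⟩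
      have h6 : |x j true - 1 / 2| < t - δ := by
        rcases h2 with h2 | h2
        · have : 0 ≤ δ := le_trans (abs_nonneg _) (hxy j true)
          linarith
        · linarith
      have h7 := abs_lt.1 h6
      constructor <;> linarith
  obtain ⟨a, b, ha, hb, hab⟩ := bij_core hf' z0 z1 zf ht0 ht (fun j => by
    by_cases h3 : 1 / 2 + t < x j true
    · exact Or.inr (Or.inl ((key j).1 h3))
    · by_cases h4 : x j true < 1 / 2 - t
      · exact Or.inl ((key j).2.1 h4)
      · exact Or.inr (Or.inr ((key j).2.2 h3 h4)))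
  refine exact_of_pair ha hb fun j σ => ?_
  show rnd t (x j) σ = _
  unfold rnd
  by_cases h3 : 1 / 2 + t < x j true
  · obtain ⟨e1, e2⟩ := (hab j).1 ((key j).1 h3)
    rw [if_pos h3, e1, e2]
    cases σ <;> norm_num
  · rw [if_neg h3]
    by_cases h4 : x j true < 1 / 2 - t
    · obtain ⟨e1, e2⟩ := (hab j).2.1 ((key j).2.1 h4)
      rw [if_pos h4, e1, e2]
      cases σ <;> norm_num
    · obtain ⟨e1, e2⟩ := (key j).2.2 h3 h4
      rw [if_neg h4, (hab j).2.2 e1 e2]
      cases σ <;> cases a j <;> norm_num

/-- **bijunctive families have a robust rounding** -/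
theorem rounds_bij {F : Set ((Fin k → Bool) → Bool)} (h : ∀ f ∈ F, Bijunctive f) : Rounds F := by
  classical
  intro ε hε
  obtain ⟨N, hN⟩ := exists_nat_gt ((k : ℝ) / ε + 1)
  have hkε : (0 : ℝ) ≤ k / ε := by positivity
  have hN1 : (1 : ℝ) < N := by linarith
  have hN0 : 0 < N := by
    have : (0 : ℝ) < N := by linarith
    exact_mod_cast this
  have hkN : (k : ℝ) ≤ ε * N := by
    have h1 : (k : ℝ) / ε < N := by linarith
    rw [div_lt_iff₀ hε] at h1
    linarith
  obtain ⟨u, hu⟩ : ∃ u : ℝ, u = 1 / (32 * ((k : ℝ) + 1) ^ 2 * N) := ⟨_, rfl⟩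
  have hNp : (0 : ℝ) < N := by linarith
  have hu0 : 0 < u := by rw [hu]; positivity
  obtain ⟨t, ht⟩ : ∃ t : Fin N → ℝ, ∀ n, t n = (2 * (n : ℕ) + 1) * u := ⟨_, fun _ => rfl⟩
  have ht0 : ∀ n, 0 ≤ t n := by
    intro n
    rw [ht]
    positivity
  have ht1 : ∀ n, 8 * t n * (k : ℝ) ^ 2 < 1 := by
    intro n
    have h1 : ((n : ℕ) : ℝ) + 1 ≤ N := by exact_mod_cast n.2
    have h2 : t n ≤ 2 * N * u := by
      rw [ht]
      exact mul_le_mul_of_nonneg_right (by linarith) hu0.le
    have h3 : 2 * N * u * (16 * ((k : ℝ) + 1) ^ 2) = 1 := by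
      rw [hu]
      field_simp
      norm_num
    have h4 : t n * (16 * ((k : ℝ) + 1) ^ 2) ≤ 1 := by
      have h6 : t n * (16 * ((k : ℝ) + 1) ^ 2) ≤ 2 * N * u * (16 * ((k : ℝ) + 1) ^ 2) :=
        mul_le_mul_of_nonneg_right h2 (by positivity)
      linarith
    have h5 : t n * (k : ℝ) ^ 2 ≤ t n * ((k : ℝ) + 1) ^ 2 := by
      refine mul_le_mul_of_nonneg_left ?_ (ht0 n)
      have : (0 : ℝ) ≤ k := Nat.cast_nonneg k
      nlinarith
    linarith
  refine ⟨u / 2, by positivity, N, fun n => rnd (t n), hN0, fun n x _ => rnd_dist _ _,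
    fun f hf' x y hx hy hxy => ?_⟩
  obtain ⟨B, hB⟩ : ∃ B : Fin k → Finset (Fin N), ∀ j, B j = univ.filter fun n =>
    |(|x j true - 1 / 2| - t n)| ≤ u / 2 := ⟨_, fun _ => rfl⟩
  have hB1 : ∀ j, (B j).card ≤ 1 := by
    intro j
    rw [card_le_one]
    intro n hn m hm
    rw [hB] at hn hm
    have h1 := abs_le.1 (mem_filter.1 hn).2
    have h2 := abs_le.1 (mem_filter.1 hm).2
    rw [ht] at h1 h2
    have h3 : (2 * ((n : ℕ) : ℝ) - 2 * ((m : ℕ) : ℝ)) * u < 2 * u := by nlinarith
    have h4 : (2 * ((m : ℕ) : ℝ) - 2 * ((n : ℕ) : ℝ)) * u < 2 * u := by nlinarith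
    have h5 : 2 * ((n : ℕ) : ℝ) - 2 * ((m : ℕ) : ℝ) < 2 := lt_of_mul_lt_mul_right h3 hu0.le
    have h6 : 2 * ((m : ℕ) : ℝ) - 2 * ((n : ℕ) : ℝ) < 2 := lt_of_mul_lt_mul_right h4 hu0.le
    have h7 : ((n : ℕ) : ℝ) < (m : ℕ) + 1 := by linarith
    have h8 : ((m : ℕ) : ℝ) < (n : ℕ) + 1 := by linarith
    have h9 : (n : ℕ) < m + 1 := by exact_mod_cast h7
    have h10 : (m : ℕ) < n + 1 := by exact_mod_cast h8
    exact Fin.ext (by omega)
  have hB2 : ((univ.biUnion B).card : ℝ) ≤ k := by
    have h1 : (univ.biUnion B).card ≤ ∑ j : Fin k, (B j).card := card_biUnion_le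
    have h2 : ∑ j : Fin k, (B j).card ≤ ∑ _j : Fin k, 1 := sum_le_sum fun j _ => hB1 j
    have h3 : ∑ _j : Fin k, 1 = k := by simp
    exact_mod_cast (h1.trans h2).trans h3.le
  have hsub : (univ \ univ.biUnion B) ⊆ univ.filter fun n : Fin N =>
      Exact f (fun j => rnd (t n) (x j)) := by
    intro n hn
    rw [Finset.mem_sdiff] at hn
    refine mem_filter.2 ⟨mem_univ n, exact_rnd (h f hf') hy (ht0 n) (ht1 n) hxy fun j hj => ?_⟩
    apply hn.2
    refine mem_biUnion.2 ⟨j, mem_univ j, ?_⟩
    rw [hB]
    exact mem_filter.2 ⟨mem_univ n, hj⟩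
  have h1 := card_le_card hsub
  rw [card_sdiff_of_subset (subset_univ _), card_univ, Fintype.card_fin] at h1
  have h2 : (univ.biUnion B).card ≤ N := by
    have := card_le_univ (univ.biUnion B)
    rwa [Fintype.card_fin] at this
  have h3 : (N : ℝ) - (univ.biUnion B).card ≤ ((univ.filter fun n : Fin N =>
      Exact f (fun j => rnd (t n) (x j))).card : ℝ) := by
    have h4 : ((N - (univ.biUnion B).card : ℕ) : ℝ) ≤ ((univ.filter fun n : Fin N =>
      Exact f (fun j => rnd (t n) (x j))).card : ℝ) := by exact_mod_cast h1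
    rwa [Nat.cast_sub h2] at h4
  have h5 : ((univ.filter fun n : Fin N => Exact f (fun j => rnd (t n) (x j))).card : ℝ) =
      (@Finset.card (Fin N) (@Finset.filter (Fin N) (fun n => Exact f (fun j => rnd (t n) (x j)))
        (fun n => Classical.propDecidable _) univ) : ℝ) := by
    congr 1
  linarith

end Pool.Agent.P8H87.LP
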