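import Pool.Agent.P8H87.LP.Loc

/-!
# Boolean predicates for which arc consistency implies the feasibility of the linear program
-/

set_option autoImplicit false

namespace Pool.Agent.P8H87.LP

open Finset Filter Topology

variable {k : ℕ} {F : Set ((Fin k → Bool) → Bool)} {mn mx : Set Bool → Bool}
  (hmn : ∀ A : Set Bool, A.Nonempty → mn A ∈ A ∧ ∀ x ∈ A, mn A ≤ x)
  (hmx : ∀ A : Set Bool, A.Nonempty → mx A ∈ A ∧ ∀ x ∈ A, x ≤ mx A)

lemma bool_dec : ∀ x p q : Bool, p ≤ x → x ≤ q → x = p ∨ x = q := by decide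

lemma xor_dec : ∀ x y z : Bool, xor x (xor y z) = x ∨ xor x (xor y z) = y ∨
    xor x (xor y z) = z := by decide

lemma xor_inv : ∀ x y z : Bool, xor (xor x (xor y z)) (xor y z) = x := by decide

lemma xor_flip : ∀ x y z : Bool, y ≠ z → xor x (xor y z) = !x := by decide

include hmn hmx

lemma bool_mem {A : Set Bool} {x : Bool} (hx : x ∈ A) : x = mn A ∨ x = mx A :=
  bool_dec x _ _ ((hmn A ⟨x, hx⟩).2 x hx) ((hmx A ⟨x, hx⟩).2 x hx)

lemma twoVar_loc {f : (Fin k → Bool) → Bool} (hf' : TwoVar f) : LocC (hf mn mx) f := by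
  classical
  apply loc_of_pair
  intro A hA hArc
  obtain ⟨i, j, hfa⟩ := hf'
  by_cases hij : i = j
  · subst hij
    obtain ⟨a, a1, a2, a3⟩ := hArc i _ (hmn _ (hA i)).1
    obtain ⟨b, b1, b2, b3⟩ := hArc i _ (hmx _ (hA i)).1
    refine ⟨fun l => mn (A l), fun l => mx (A l), ?_, ?_, fun l => Or.inl ⟨rfl, rfl⟩⟩
    · rw [← hfa a _ a2 a2, a1]
    · rw [← hfa b _ b2 b2, b1]
  · obtain ⟨u1, hu1⟩ : ∃ u : Fin k → Bool, ∀ l, u l = mn (A l) := ⟨_, fun _ => rfl⟩
    obtain ⟨w1, hw1⟩ : ∃ u : Fin k → Bool, ∀ l, u l = mx (A l) := ⟨_, fun _ => rfl⟩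
    obtain ⟨u2, hu2⟩ : ∃ u : Fin k → Bool, ∀ l, u l = if l = j then mx (A l) else mn (A l) :=
      ⟨_, fun _ => rfl⟩
    obtain ⟨w2, hw2⟩ : ∃ u : Fin k → Bool, ∀ l, u l = if l = j then mn (A l) else mx (A l) :=
      ⟨_, fun _ => rfl⟩
    have hu2i : u2 i = mn (A i) := by rw [hu2, if_neg hij]
    have hu2j : u2 j = mx (A j) := by rw [hu2, if_pos rfl]
    have hw2i : w2 i = mx (A i) := by rw [hw2, if_neg hij]
    have hw2j : w2 j = mn (A j) := by rw [hw2, if_pos rfl]
    have c1 : f u1 = true ∨ f u2 = true := by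
      obtain ⟨a, a1, a2, a3⟩ := hArc i _ (hmn _ (hA i)).1
      rcases bool_mem hmn hmx (a3 j) with h | h
      · left
        rw [← hfa a u1 (by rw [a2, hu1]) (by rw [h, hu1]), a1]
      · right
        rw [← hfa a u2 (by rw [a2, hu2i]) (by rw [h, hu2j]), a1]
    have c2 : f w1 = true ∨ f w2 = true := by
      obtain ⟨a, a1, a2, a3⟩ := hArc i _ (hmx _ (hA i)).1
      rcases bool_mem hmn hmx (a3 j) with h | h
      · right
        rw [← hfa a w2 (by rw [a2, hw2i]) (by rw [h, hw2j]), a1]
      · left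
        rw [← hfa a w1 (by rw [a2, hw1]) (by rw [h, hw1]), a1]
    have c3 : f u1 = true ∨ f w2 = true := by
      obtain ⟨a, a1, a2, a3⟩ := hArc j _ (hmn _ (hA j)).1
      rcases bool_mem hmn hmx (a3 i) with h | h
      · left
        rw [← hfa a u1 (by rw [h, hu1]) (by rw [a2, hu1]), a1]
      · right
        rw [← hfa a w2 (by rw [h, hw2i]) (by rw [a2, hw2j]), a1]
    have c4 : f w1 = true ∨ f u2 = true := by
      obtain ⟨a, a1, a2, a3⟩ := hArc j _ (hmx _ (hA j)).1
      rcases bool_mem hmn hmx (a3 i) with h | h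
      · right
        rw [← hfa a u2 (by rw [h, hu2i]) (by rw [a2, hu2j]), a1]
      · left
        rw [← hfa a w1 (by rw [h, hw1]) (by rw [a2, hw1]), a1]
    by_cases h : f u1 = true ∧ f w1 = true
    · exact ⟨u1, w1, h.1, h.2, fun l => Or.inl ⟨hu1 l, hw1 l⟩⟩
    · have h' : f u2 = true ∧ f w2 = true := by
        by_cases h1 : f u1 = true
        · have h2 : ¬ f w1 = true := fun h2 => h ⟨h1, h2⟩
          exact ⟨c4.resolve_left h2, c2.resolve_left h2⟩
        · exact ⟨c1.resolve_left h1, c3.resolve_left h1⟩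
      refine ⟨u2, w2, h'.1, h'.2, fun l => ?_⟩
      by_cases hl : l = j
      · right
        rw [hu2, hw2, if_pos hl, if_pos hl]
        exact ⟨rfl, rfl⟩
      · left
        rw [hu2, hw2, if_neg hl, if_neg hl]
        exact ⟨rfl, rfl⟩

lemma affine_loc (hk : 1 ≤ k) {f : (Fin k → Bool) → Bool} (hf' : Affine f) :
    LocC (hf mn mx) f := by
  classical
  intro A hA hArc
  obtain ⟨T, hT⟩ : ∃ T : Finset (Fin k → Bool), ∀ a, a ∈ T ↔ f a = true ∧ ∀ l, a l ∈ A l :=
    ⟨univ.filter fun a => f a = true ∧ ∀ l, a l ∈ A l, fun a => by simp⟩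
  obtain ⟨a0, h0⟩ : T.Nonempty := by
    obtain ⟨σ, hσ⟩ := hA ⟨0, hk⟩
    obtain ⟨a, h1, -, h3⟩ := hArc _ σ hσ
    exact ⟨a, (hT a).2 ⟨h1, h3⟩⟩
  have hN : (0 : ℝ) < T.card := by exact_mod_cast Finset.card_pos.2 ⟨a0, h0⟩
  have hclosed : ∀ a ∈ T, ∀ b ∈ T, ∀ c ∈ T, (fun j => xor (a j) (xor (b j) (c j))) ∈ T := by
    intro a ha b hb c hc
    rw [hT] at ha hb hc ⊢
    refine ⟨hf' a b c ha.1 hb.1 hc.1, fun l => ?_⟩
    show xor (a l) (xor (b l) (c l)) ∈ A l
    rcases xor_dec (a l) (b l) (c l) with h | h | h <;> rw [h]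
    · exact ha.2 l
    · exact hb.2 l
    · exact hc.2 l
  have hmarg : ∀ j σ, ((T.filter fun a => a j = σ).card : ℝ) = T.card * hf mn mx (A j) σ := by
    intro j σ
    by_cases h : mn (A j) = mx (A j)
    · have hall : ∀ a ∈ T, a j = mn (A j) := by
        intro a ha
        rcases bool_mem hmn hmx (((hT a).1 ha).2 j) with h1 | h1
        · exact h1
        · rw [h1, h]
      unfold hf
      rw [← h]
      by_cases hσ : mn (A j) = σ
      · rw [if_pos hσ, filter_true_of_mem fun a ha => (hall a ha).trans hσ]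
        ring
      · rw [if_neg hσ, filter_false_of_mem fun a ha h1 => hσ ((hall a ha).symm.trans h1)]
        simp
    · obtain ⟨u, u1, u2, u3⟩ := hArc j _ (hmn _ (hA j)).1
      obtain ⟨w, w1, w2, w3⟩ := hArc j _ (hmx _ (hA j)).1
      have hu : u ∈ T := (hT u).2 ⟨u1, u3⟩
      have hw : w ∈ T := (hT w).2 ⟨w1, w3⟩
      have huw : u j ≠ w j := by rw [u2, w2]; exact h
      have hone : hf mn mx (A j) σ = 1 / 2 := by
        unfold hf
        by_cases h1 : mn (A j) = σ
        · have h2 : ¬ mx (A j) = σ := fun h2 => h (h1.trans h2.symm)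
          rw [if_pos h1, if_neg h2]
          norm_num
        · have h2 : mx (A j) = σ := by
            revert h h1
            generalize mn (A j) = p
            generalize mx (A j) = q
            cases p <;> cases q <;> cases σ <;> simp
          rw [if_neg h1, if_pos h2]
          norm_num
      rw [hone]
      have hcard : (T.filter fun a => a j = σ).card = (T.filter fun a => ¬ a j = σ).card := by
        refine Finset.card_bij' (fun a _ => fun l => xor (a l) (xor (u l) (w l)))
          (fun a _ => fun l => xor (a l) (xor (u l) (w l))) ?_ ?_ ?_ ?_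
        · intro a ha
          rw [mem_filter] at ha ⊢
          refine ⟨hclosed a ha.1 u hu w hw, ?_⟩
          show ¬ xor (a j) (xor (u j) (w j)) = σ
          rw [xor_flip _ _ _ huw, ha.2]
          cases σ <;> decide
        · intro a ha
          rw [mem_filter] at ha ⊢
          refine ⟨hclosed a ha.1 u hu w hw, ?_⟩
          show xor (a j) (xor (u j) (w j)) = σ
          rw [xor_flip _ _ _ huw]
          have h2 := ha.2
          revert h2
          cases a j <;> cases σ <;> simp
        · intro a ha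
          funext l
          exact xor_inv _ _ _
        · intro a ha
          funext l
          exact xor_inv _ _ _
      have h3 : (T.filter fun a => a j = σ).card + (T.filter fun a => ¬ a j = σ).card = T.card :=
        card_filter_add_card_filter_not _
      have h4 : ((T.filter fun a => a j = σ).card : ℝ) + (T.filter fun a => a j = σ).card =
          T.card := by
        rw [← hcard] at h3
        exact_mod_cast h3
      linarith
  refine ⟨fun a => if a ∈ T then (T.card : ℝ)⁻¹ else 0, fun a => ?_, fun a ha => ?_, ?_,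
    fun j σ => ?_⟩
  · dsimp only
    split_ifs
    · positivity
    · exact le_rfl
  · by_contra h
    apply ha
    have : a ∉ T := fun h1 => h ((hT a).1 h1).1
    exact if_neg this
  · rw [← sum_filter, filter_mem_eq_inter, univ_inter, sum_const, nsmul_eq_mul,
      mul_inv_cancel₀ hN.ne']
  · have e : ∑ a ∈ univ.filter (fun a : Fin k → Bool => a j = σ),
        (if a ∈ T then (T.card : ℝ)⁻¹ else 0) = hf mn mx (A j) σ := by
      rw [← sum_filter, filter_filter]
      have h1 : univ.filter (fun a : Fin k → Bool => a j = σ ∧ a ∈ T) =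
          T.filter fun a => a j = σ := by
        ext a
        simp [and_comm]
      rw [h1, sum_const, nsmul_eq_mul, hmarg, mul_comm (T.card : ℝ), mul_assoc,
        mul_inv_cancel₀ hN.ne', mul_one]
    refine Eq.trans ?_ e
    congr!

omit hmn hmx

/-- the classes for the Boolean alphabet -/
theorem arc_bool (hk : 1 ≤ k)
    (h : ∀ f ∈ F, Affine f ∨ TwoVar f ∨ Clause f ∨ Lattice f) (I : Inst Bool k F) (hI : I.Arc) :
    I.valLP = 1 := by
  obtain ⟨mn, mx, hmn, hmx⟩ := exists_mn (S := Bool)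
  refine arc_of_loc (sel := hf mn mx) (fun A _ => hf_sel A) (fun f hf' => ?_) I hI
  rcases h f hf' with h | h | h | h
  · exact affine_loc hmn hmx hk h
  · exact twoVar_loc hmn hmx h
  · exact clause_loc hmn hmx hk h
  · exact lattice_loc hmn hmx hk h

end Pool.Agent.P8H87.LP
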