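import Pool.Agent.P8H87.LP.Rate

/-!
# Further classes of predicates: closed under the minimum, and affine over finite fields
-/

set_option autoImplicit false

namespace Pool.Agent.P8H87.LP

open Finset Filter Topology

section defs

variable {S : Type} {k : ℕ}

/-- the satisfying tuples are closed under the minimum, coordinate by coordinate -/
def MinClosed [LinearOrder S] (f : (Fin k → S) → Bool) : Prop :=
  ∀ a b, f a = true → f b = true → f (fun j => min (a j) (b j)) = true

/-- the satisfying tuples are closed under the maximum, coordinate by coordinate -/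
def MaxClosed [LinearOrder S] (f : (Fin k → S) → Bool) : Prop :=
  ∀ a b, f a = true → f b = true → f (fun j => max (a j) (b j)) = true

/-- a system of linear equations over the field `S` -/
def AffineOver [Field S] (f : (Fin k → S) → Bool) : Prop :=
  ∀ (a b c : Fin k → S) (t : S), f a = true → f b = true → f c = true →
    f (fun j => a j + t * (b j - c j)) = true

end defs

variable {S : Type} [Fintype S] {k : ℕ} {F : Set ((Fin k → S) → Bool)}

open scoped Classical in
lemma loc_of_point {g : Set S → S} {f : (Fin k → S) → Bool}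
    (h : ∀ A : Fin k → Set S, (∀ j, (A j).Nonempty) → ArcC f A → f (fun j => g (A j)) = true) :
    LocC (fun A σ => if g A = σ then 1 else 0) f := by
  intro A hA hf'
  refine ⟨fun a => if a = (fun j => g (A j)) then 1 else 0, fun a => ?_, fun a ha => ?_, ?_,
    fun j σ => ?_⟩
  · dsimp only
    split_ifs <;> norm_num
  · by_cases h1 : a = fun j => g (A j)
    · rw [h1, h A hA hf']
    · exfalso
      apply ha
      simp [h1]
  · simp
  · rw [sum_ite_eq']
    simp

open scoped Classical in
lemma point_sel (g : Set S → S) (A : Set S) : (∀ σ, (0 : ℝ) ≤ (if g A = σ then 1 else 0)) ∧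
    ∑ σ, (if g A = σ then (1 : ℝ) else 0) = 1 := by
  refine ⟨fun σ => ?_, ?_⟩
  · split_ifs <;> norm_num
  · simp

theorem arc_valid [Nonempty S] (c : S) (h : ∀ f ∈ F, f (fun _ => c) = true) (I : Inst S k F)
    (hI : I.Arc) : I.valLP = 1 := by
  classical
  exact arc_of_loc (fun A _ => point_sel (fun _ => c) A)
    (fun f hf' => loc_of_point (g := fun _ => c) fun A hA hArc => h f hf') I hI

theorem arc_min [Nonempty S] [LinearOrder S] (hk : 1 ≤ k) (h : ∀ f ∈ F, MinClosed f)
    (I : Inst S k F) (hI : I.Arc) : I.valLP = 1 := by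
  classical
  obtain ⟨mn, mx, hmn, hmx⟩ := exists_mn (S := S)
  refine arc_of_loc (fun A _ => point_sel mn A)
    (fun f hf' => loc_of_point (g := mn) fun A hA hArc => ?_) I hI
  obtain ⟨T, hT⟩ : ∃ T : Set (Fin k → S), T = {a | f a = true ∧ ∀ l, a l ∈ A l} := ⟨_, rfl⟩
  have hTm : ∀ a, a ∈ T ↔ f a = true ∧ ∀ l, a l ∈ A l := by
    intro a
    rw [hT]
    rfl
  obtain ⟨a0, h0⟩ : T.Nonempty := by
    obtain ⟨σ, hσ⟩ := hA ⟨0, hk⟩
    obtain ⟨a, h1, -, h3⟩ := hArc _ σ hσ
    exact ⟨a, (hTm a).2 ⟨h1, h3⟩⟩
  have hinf : ∀ a ∈ T, ∀ b ∈ T, (fun j => min (a j) (b j)) ∈ T := by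
    intro a ha b hb
    rw [hTm] at ha hb ⊢
    refine ⟨h f hf' a b ha.1 hb.1, fun l => ?_⟩
    show min (a l) (b l) ∈ A l
    rcases min_choice (a l) (b l) with h | h <;> rw [h]
    · exact ha.2 l
    · exact hb.2 l
  have hfin : T.Finite := Set.toFinite T
  have hne : hfin.toFinset.Nonempty := ⟨a0, hfin.mem_toFinset.2 h0⟩
  have hm : hfin.toFinset.inf' hne id ∈ T :=
    Finset.inf'_mem T (fun a ha b hb => hinf a ha b hb) _ _ _ fun a ha => hfin.mem_toFinset.1 ha
  have hle : ∀ a ∈ T, hfin.toFinset.inf' hne id ≤ a := fun a ha =>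
    Finset.inf'_le (f := id) (b := a) (hfin.mem_toFinset.2 ha)
  have hmT := (hTm _).1 hm
  have heq : hfin.toFinset.inf' hne id = fun j => mn (A j) := by
    funext j
    obtain ⟨a, h1, h2, h3⟩ := hArc j (mn (A j)) (hmn _ (hA j)).1
    have h4 := hle a ((hTm a).2 ⟨h1, h3⟩) j
    rw [h2] at h4
    exact le_antisymm h4 ((hmn _ (hA j)).2 _ (hmT.2 j))
  rw [← heq]
  exact hmT.1

theorem arc_max [Nonempty S] [LinearOrder S] (hk : 1 ≤ k) (h : ∀ f ∈ F, MaxClosed f)
    (I : Inst S k F) (hI : I.Arc) : I.valLP = 1 := by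
  classical
  obtain ⟨mn, mx, hmn, hmx⟩ := exists_mn (S := S)
  refine arc_of_loc (fun A _ => point_sel mx A)
    (fun f hf' => loc_of_point (g := mx) fun A hA hArc => ?_) I hI
  obtain ⟨T, hT⟩ : ∃ T : Set (Fin k → S), T = {a | f a = true ∧ ∀ l, a l ∈ A l} := ⟨_, rfl⟩
  have hTm : ∀ a, a ∈ T ↔ f a = true ∧ ∀ l, a l ∈ A l := by
    intro a
    rw [hT]
    rfl
  obtain ⟨a0, h0⟩ : T.Nonempty := by
    obtain ⟨σ, hσ⟩ := hA ⟨0, hk⟩
    obtain ⟨a, h1, -, h3⟩ := hArc _ σ hσ
    exact ⟨a, (hTm a).2 ⟨h1, h3⟩⟩
  have hsup : ∀ a ∈ T, ∀ b ∈ T, (fun j => max (a j) (b j)) ∈ T := by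
    intro a ha b hb
    rw [hTm] at ha hb ⊢
    refine ⟨h f hf' a b ha.1 hb.1, fun l => ?_⟩
    show max (a l) (b l) ∈ A l
    rcases max_choice (a l) (b l) with h | h <;> rw [h]
    · exact ha.2 l
    · exact hb.2 l
  have hfin : T.Finite := Set.toFinite T
  have hne : hfin.toFinset.Nonempty := ⟨a0, hfin.mem_toFinset.2 h0⟩
  have hm : hfin.toFinset.sup' hne id ∈ T :=
    Finset.sup'_mem T (fun a ha b hb => hsup a ha b hb) _ _ _ fun a ha => hfin.mem_toFinset.1 ha
  have hle : ∀ a ∈ T, a ≤ hfin.toFinset.sup' hne id := fun a ha =>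
    Finset.le_sup' (f := id) (b := a) (hfin.mem_toFinset.2 ha)
  have hmT := (hTm _).1 hm
  have heq : hfin.toFinset.sup' hne id = fun j => mx (A j) := by
    funext j
    obtain ⟨a, h1, h2, h3⟩ := hArc j (mx (A j)) (hmx _ (hA j)).1
    have h4 := hle a ((hTm a).2 ⟨h1, h3⟩) j
    rw [h2] at h4
    exact le_antisymm ((hmx _ (hA j)).2 _ (hmT.2 j)) h4
  rw [← heq]
  exact hmT.1

open scoped Classical in
/-- a single symbol, or the uniform distribution on the whole alphabet -/
noncomputable def uf (A : Set S) (σ : S) : ℝ :=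
  if A.Subsingleton then (if σ ∈ A then 1 else 0) else 1 / Fintype.card S

lemma uf_sel [Nonempty S] (A : Set S) (hA : A.Nonempty) : (∀ σ, 0 ≤ uf A σ) ∧ ∑ σ, uf A σ = 1 := by
  classical
  obtain ⟨s, hs⟩ := hA
  by_cases h : A.Subsingleton
  · have e1 : ∀ σ, uf A σ = if σ = s then 1 else 0 := by
      intro σ
      unfold uf
      rw [if_pos h]
      by_cases h1 : σ = s
      · rw [if_pos (by rw [h1]; exact hs), if_pos h1]
      · rw [if_neg (fun h2 => h1 (h h2 hs)), if_neg h1]
    simp only [e1]
    refine ⟨fun σ => ?_, ?_⟩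
    · split_ifs <;> norm_num
    · simp
  · have e1 : ∀ σ, uf A σ = 1 / Fintype.card S := by
      intro σ
      unfold uf
      rw [if_neg h]
    simp only [e1]
    refine ⟨fun σ => by positivity, ?_⟩
    rw [sum_const, card_univ, nsmul_eq_mul, mul_one_div, div_self]
    have : (0 : ℝ) < Fintype.card S := by exact_mod_cast Fintype.card_pos
    exact this.ne'

lemma affineOver_loc [Field S] (hk : 1 ≤ k) {f : (Fin k → S) → Bool} (hf' : AffineOver f) :
    LocC uf f := by
  classical
  intro A hA hArc
  obtain ⟨L, hL⟩ : ∃ L : Finset (Fin k → S), L = univ.filter fun a => f a = true ∧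
    ∀ l, (A l).Subsingleton → a l ∈ A l := ⟨_, rfl⟩
  have hLm : ∀ a, a ∈ L ↔ f a = true ∧ ∀ l, (A l).Subsingleton → a l ∈ A l := by
    intro a
    rw [hL]
    simp
  have hLne : L.Nonempty := by
    obtain ⟨σ, hσ⟩ := hA ⟨0, hk⟩
    obtain ⟨a, h1, -, h3⟩ := hArc _ σ hσ
    exact ⟨a, (hLm a).2 ⟨h1, fun l _ => h3 l⟩⟩
  have hLc : (0 : ℝ) < L.card := by exact_mod_cast hLne.card_pos
  refine ⟨fun a => if a ∈ L then 1 / L.card else 0, fun a => ?_, fun a ha => ?_, ?_,
    fun j σ => ?_⟩
  · dsimp only
    split_ifs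
    · positivity
    · exact le_rfl
  · by_cases h1 : a ∈ L
    · exact ((hLm a).1 h1).1
    · exfalso
      apply ha
      simp [h1]
  · rw [← sum_filter, sum_const, nsmul_eq_mul, mul_one_div]
    have e1 : (univ.filter fun a => a ∈ L) = L := by
      ext a
      simp
    rw [e1, div_self hLc.ne']
  · have e1 : ∑ a ∈ univ.filter (fun a : Fin k → S => a j = σ),
        (if a ∈ L then (1 : ℝ) / L.card else 0) = (L.filter fun a => a j = σ).card / L.card := by
      rw [← sum_filter, sum_const, nsmul_eq_mul, mul_one_div]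
      congr 3
      ext a
      simp only [mem_filter, mem_univ, true_and]
      exact and_comm
    refine Eq.trans (Eq.trans (sum_congr ?_ fun _ _ => rfl) e1) ?_
    · ext a
      simp only [mem_filter]
    · unfold uf
      by_cases h : (A j).Subsingleton
      · rw [if_pos h]
        by_cases h1 : σ ∈ A j
        · rw [if_pos h1]
          have e2 : (L.filter fun a => a j = σ) = L := by
            refine filter_true_of_mem fun a ha => ?_
            exact h (((hLm a).1 ha).2 j h) h1
          rw [e2, div_self hLc.ne']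
        · rw [if_neg h1]
          have e2 : (L.filter fun a => a j = σ) = ∅ := by
            refine filter_false_of_mem fun a ha h2 => h1 ?_
            rw [← h2]
            exact ((hLm a).1 ha).2 j h
          rw [e2]
          simp
      · rw [if_neg h]
        rw [Set.not_subsingleton_iff] at h
        obtain ⟨p, hp, q, hq, hpq⟩ := h
        obtain ⟨b, b1, b2, b3⟩ := hArc j p hp
        obtain ⟨c, c1, c2, c3⟩ := hArc j q hq
        have hne : b j - c j ≠ 0 := by
          rw [b2, c2]
          exact sub_ne_zero.2 hpq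
        have hcard : ∀ s r : S, (L.filter fun a => a j = s).card ≤
            (L.filter fun a => a j = r).card := by
          intro s r
          refine card_le_card_of_injOn (fun a l => a l + (r - s) / (b j - c j) * (b l - c l))
            (fun a ha => ?_) (fun a _ a' _ haa => ?_)
          · rw [mem_coe, mem_filter] at ha
            obtain ⟨ha1, ha2⟩ := ha
            have ha3 := (hLm a).1 ha1
            rw [mem_coe, mem_filter]
            refine ⟨(hLm _).2 ⟨hf' a b c _ ha3.1 b1 c1, fun l hl => ?_⟩, ?_⟩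
            · have e2 : b l = c l := hl (b3 l) (c3 l)
              show a l + (r - s) / (b j - c j) * (b l - c l) ∈ A l
              rw [e2, sub_self, mul_zero, add_zero]
              exact ha3.2 l hl
            · show a j + (r - s) / (b j - c j) * (b j - c j) = r
              rw [div_mul_cancel₀ _ hne, ha2]
              ring
          · funext l
            have := congrFun haa l
            exact add_right_cancel this
        have hall : ∀ s, (L.filter fun a => a j = s).card = (L.filter fun a => a j = σ).card :=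
          fun s => le_antisymm (hcard _ _) (hcard _ _)
        have hsum : (L.card : ℝ) = Fintype.card S * (L.filter fun a => a j = σ).card := by
          have e2 : L.card = ∑ s : S, (L.filter fun a => a j = s).card :=
            card_eq_sum_card_fiberwise (fun a _ => mem_univ (a j))
          rw [e2, sum_congr rfl fun s _ => hall s, sum_const, card_univ, nsmul_eq_mul]
          push_cast
          rfl
        have hS : (0 : ℝ) < Fintype.card S := by
          have : Nonempty S := ⟨0⟩
          exact_mod_cast Fintype.card_pos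
        rw [div_eq_div_iff hLc.ne' hS.ne', hsum]
        ring

theorem arc_affine [Field S] (hk : 1 ≤ k) (h : ∀ f ∈ F, AffineOver f)
    (I : Inst S k F) (hI : I.Arc) : I.valLP = 1 := by
  have : Nonempty S := ⟨0⟩
  exact arc_of_loc (fun A hA => uf_sel A hA) (fun f hf' => affineOver_loc hk (h f hf')) I hI

end Pool.Agent.P8H87.LP
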