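import Pool.Agent.P8H87.LP.Flow

/-!
# Families closed under the dual discriminator
-/

set_option autoImplicit false

namespace Pool.Agent.P8H87.LP

open Finset Filter Topology

section defs

variable {S : Type} {k : ℕ}

/-- the satisfying tuples are closed under the operation `p`, coordinate by coordinate -/
def Closed3 (p : S → S → S → S) (f : (Fin k → S) → Bool) : Prop :=
  ∀ a b c, f a = true → f b = true → f c = true → f (fun j => p (a j) (b j) (c j)) = true

open scoped Classical in
/-- the dual discriminator: the first argument if the first two are equal, else the third -/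
noncomputable def dualDisc (a b c : S) : S := if a = b then a else c

end defs

variable {S : Type} [Fintype S] {k : ℕ} {F : Set ((Fin k → S) → Bool)}

open scoped Classical in
/-- the distribution of `p X Y Z` with `X`, `Y`, `Z` independent with the distribution `x` -/
noncomputable def push (p : S → S → S → S) (x : S → ℝ) (σ : S) : ℝ :=
  ∑ β, x β * ∑ γ, x γ * ∑ η, x η * (if p β γ η = σ then 1 else 0)

lemma push_cont (p : S → S → S → S) : Continuous (push p) := by
  unfold push
  fun_prop

lemma push_dist (p : S → S → S → S) {x : S → ℝ} (hx : IsDist x) : IsDist (push p x) := by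
  classical
  obtain ⟨h0, h1⟩ := hx
  constructor
  · intro σ
    refine sum_nonneg fun β _ => mul_nonneg (h0 β) (sum_nonneg fun γ _ => mul_nonneg (h0 γ)
      (sum_nonneg fun η _ => mul_nonneg (h0 η) ?_))
    split_ifs <;> norm_num
  · unfold push
    rw [sum_comm]
    calc _ = ∑ β, x β * ∑ γ, x γ * ∑ η, x η := by
          refine sum_congr rfl fun β _ => ?_
          rw [← mul_sum, sum_comm]
          congr 1
          refine sum_congr rfl fun γ _ => ?_
          rw [← mul_sum, sum_comm]
          congr 1
          refine sum_congr rfl fun η _ => ?_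
          rw [← mul_sum, sum_ite_eq]
          simp
      _ = 1 := by
          rw [h1]
          simp only [mul_one, h1]

open scoped Classical in
lemma marg_sum {z : (Fin k → S) → ℝ} {v : S → ℝ} {j : Fin k}
    (hm : ∀ σ, ∑ a ∈ univ.filter (fun a : Fin k → S => a j = σ), z a = v σ) (φ : S → ℝ) :
    ∑ b, z b * φ (b j) = ∑ β, v β * φ β := by
  calc ∑ b, z b * φ (b j) = ∑ β, ∑ b ∈ univ.filter (fun a : Fin k → S => a j = β),
        z b * φ (b j) := (sum_fiberwise univ (fun a : Fin k → S => a j) _).symm
    _ = _ := by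
      refine sum_congr rfl fun β _ => ?_
      rw [← hm β, sum_mul]
      refine sum_congr rfl fun b hb => ?_
      rw [(mem_filter.1 hb).2]

lemma push_exact {p : S → S → S → S} {f : (Fin k → S) → Bool} (hp : Closed3 p f)
    {x : Fin k → S → ℝ} (hx : Exact f x) : Exact f (fun j => push p (x j)) := by
  classical
  obtain ⟨z, z0, zf, z1, zm⟩ := hx
  refine ⟨fun a => ∑ b, z b * ∑ c, z c * ∑ e, z e *
    (if (fun j => p (b j) (c j) (e j)) = a then 1 else 0), fun a => ?_, fun a ha => ?_, ?_,
    fun j σ => ?_⟩
  · refine sum_nonneg fun b _ => mul_nonneg (z0 b) (sum_nonneg fun c _ => mul_nonneg (z0 c)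
      (sum_nonneg fun e _ => mul_nonneg (z0 e) ?_))
    split_ifs <;> norm_num
  · obtain ⟨b, -, hb⟩ := exists_ne_zero_of_sum_ne_zero ha
    obtain ⟨hb1, hb2⟩ := mul_ne_zero_iff.1 hb
    obtain ⟨c, -, hc⟩ := exists_ne_zero_of_sum_ne_zero hb2
    obtain ⟨hc1, hc2⟩ := mul_ne_zero_iff.1 hc
    obtain ⟨e, -, he⟩ := exists_ne_zero_of_sum_ne_zero hc2
    obtain ⟨he1, he2⟩ := mul_ne_zero_iff.1 he
    by_cases h : (fun j => p (b j) (c j) (e j)) = a
    · rw [← h]
      exact hp b c e (zf b hb1) (zf c hc1) (zf e he1)
    · rw [if_neg h] at he2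
      exact absurd rfl he2
  · rw [sum_comm]
    calc _ = ∑ b, z b * ∑ c, z c * ∑ e, z e := by
          refine sum_congr rfl fun β _ => ?_
          rw [← mul_sum, sum_comm]
          congr 1
          refine sum_congr rfl fun γ _ => ?_
          rw [← mul_sum, sum_comm]
          congr 1
          refine sum_congr rfl fun η _ => ?_
          rw [← mul_sum, sum_ite_eq]
          simp
      _ = 1 := by
          rw [z1]
          simp only [mul_one, z1]
  · rw [sum_comm]
    have e1 : ∀ b c e : Fin k → S, ∑ a ∈ univ.filter (fun a : Fin k → S => a j = σ),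
        (if (fun j => p (b j) (c j) (e j)) = a then (1 : ℝ) else 0) =
        if p (b j) (c j) (e j) = σ then 1 else 0 := by
      intro b c e
      rw [sum_ite_eq]
      simp only [mem_filter, mem_univ, true_and]
    calc _ = ∑ b, z b * ∑ c, z c * ∑ e, z e * (if p (b j) (c j) (e j) = σ then (1 : ℝ) else 0) := by
          refine sum_congr rfl fun b _ => ?_
          rw [← mul_sum, sum_comm]
          congr 1
          refine sum_congr rfl fun c _ => ?_
          rw [← mul_sum, sum_comm]
          congr 1
          refine sum_congr rfl fun e _ => ?_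
          rw [← mul_sum, e1]
      _ = _ := by
          unfold push
          rw [marg_sum (v := x j) (zm j) (fun β => ∑ c, z c * ∑ e, z e *
            (if p β (c j) (e j) = σ then (1 : ℝ) else 0))]
          refine sum_congr rfl fun β _ => ?_
          congr 1
          rw [marg_sum (v := x j) (zm j) (fun γ => ∑ e, z e *
            (if p β γ (e j) = σ then (1 : ℝ) else 0))]
          refine sum_congr rfl fun γ _ => ?_
          congr 1
          rw [marg_sum (v := x j) (zm j) (fun η => (if p β γ η = σ then (1 : ℝ) else 0))]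

lemma push_dd {x : S → ℝ} (hx : IsDist x) (σ : S) :
    push dualDisc x σ = x σ * (1 + x σ - ∑ τ, x τ ^ 2) := by
  classical
  obtain ⟨h0, h1⟩ := hx
  have e1 : ∀ β γ : S, ∑ η, x η * (if dualDisc β γ η = σ then (1 : ℝ) else 0) =
      (if β = γ then (if β = σ then 1 else 0) - x σ else 0) + x σ := by
    intro β γ
    by_cases h : β = γ
    · have e2 : ∀ η, dualDisc β γ η = β := fun η => if_pos h
      simp only [e2, if_pos h]
      rw [← sum_mul, h1]
      ring
    · have e2 : ∀ η, dualDisc β γ η = η := fun η => if_neg h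
      simp only [e2, if_neg h]
      simp
  have e3 : ∀ β : S, ∑ γ, x γ * ∑ η, x η * (if dualDisc β γ η = σ then (1 : ℝ) else 0) =
      x β * ((if β = σ then 1 else 0) - x σ) + x σ := by
    intro β
    have e2 : ∀ γ : S, x γ * ∑ η, x η * (if dualDisc β γ η = σ then (1 : ℝ) else 0) =
        (if β = γ then x γ * ((if β = σ then 1 else 0) - x σ) else 0) + x γ * x σ := by
      intro γ
      rw [e1]
      by_cases h : β = γ
      · rw [if_pos h, if_pos h]
        ring
      · rw [if_neg h, if_neg h]
        ring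
    rw [sum_congr rfl fun γ _ => e2 γ, sum_add_distrib, sum_ite_eq, ← sum_mul, h1]
    simp
  unfold push
  have e4 : ∀ β : S, x β * ∑ γ, x γ * ∑ η, x η * (if dualDisc β γ η = σ then (1 : ℝ) else 0) =
      (if β = σ then x β ^ 2 else 0) - x β ^ 2 * x σ + x β * x σ := by
    intro β
    rw [e3]
    split_ifs <;> ring
  have e5 : ∑ β, x β * ∑ γ, x γ * ∑ η, x η * (if dualDisc β γ η = σ then (1 : ℝ) else 0) =
      ∑ β, ((if β = σ then x β ^ 2 else 0) - x β ^ 2 * x σ + x β * x σ) :=
    sum_congr rfl fun β _ => e4 β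
  refine Eq.trans ?_ (e5.trans ?_)
  · refine sum_congr rfl fun β _ => ?_
    congr 1
  · rw [sum_add_distrib, sum_sub_distrib, sum_ite_eq', ← sum_mul, ← sum_mul, h1]
    simp
    ring

open scoped Classical in
/-- **families closed under the dual discriminator** -/
theorem flow_dd (h : ∀ f ∈ F, Closed3 dualDisc f) : Flow F := by
  refine ⟨Set.range fun A : {A : Finset S // A.Nonempty} => fun σ : S =>
    if σ ∈ A.1 then (1 : ℝ) / A.1.card else 0, push dualDisc, fun x => ∑ τ, x τ ^ 2,
    Set.finite_range _, push_cont _, by fun_prop, ?_, fun x hx => push_dist _ hx,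
    fun f hf' x hx => push_exact (h f hf') hx, ?_⟩
  · rintro _ ⟨A, rfl⟩
    have hA : (0 : ℝ) < A.1.card := by exact_mod_cast A.2.card_pos
    constructor
    · intro σ
      dsimp only
      split_ifs
      · positivity
      · exact le_rfl
    · dsimp only
      rw [sum_ite_mem, univ_inter, sum_const, nsmul_eq_mul, mul_one_div, div_self hA.ne']
  · have key : ∀ x : S → ℝ, IsDist x → ∑ τ, push dualDisc x τ ^ 2 - ∑ τ, x τ ^ 2 =
        ∑ τ, x τ * (x τ - ∑ τ, x τ ^ 2) ^ 2 * (x τ + 2) := by
      intro x hx
      obtain ⟨s, hs⟩ : ∃ s, s = ∑ τ, x τ ^ 2 := ⟨_, rfl⟩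
      have e1 : ∀ τ, push dualDisc x τ ^ 2 - x τ ^ 2 =
          x τ * (x τ - s) ^ 2 * (x τ + 2) + 2 * s * (x τ ^ 2 - s * x τ) := by
        intro τ
        rw [push_dd hx, ← hs]
        ring
      have e2 : ∑ τ, push dualDisc x τ ^ 2 - s = ∑ τ, (push dualDisc x τ ^ 2 - x τ ^ 2) := by
        rw [sum_sub_distrib, hs]
      rw [← hs, e2, sum_congr rfl fun τ _ => e1 τ, sum_add_distrib, ← mul_sum,
        sum_sub_distrib, ← mul_sum, hx.2, ← hs]
      ring
    have hnn : ∀ x : S → ℝ, IsDist x → ∀ τ, 0 ≤ x τ * (x τ - ∑ τ, x τ ^ 2) ^ 2 * (x τ + 2) := by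
      intro x hx τ
      have := hx.1 τ
      positivity
    refine ⟨fun x hx => ?_, fun x hx hQ => ?_⟩
    · have h1 := key x hx
      have h2 : 0 ≤ ∑ τ, x τ * (x τ - ∑ τ, x τ ^ 2) ^ 2 * (x τ + 2) :=
        sum_nonneg fun τ _ => hnn x hx τ
      dsimp only
      linarith
    · have h1 := key x hx
      by_contra hcon
      dsimp only at hcon
      have h2 : ∑ τ, x τ * (x τ - ∑ τ, x τ ^ 2) ^ 2 * (x τ + 2) = 0 :=
        le_antisymm (by linarith) (sum_nonneg fun τ _ => hnn x hx τ)
      have h3 : ∀ τ, x τ ≠ 0 → x τ = ∑ τ, x τ ^ 2 := by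
        intro τ hτ
        have h4 := (sum_eq_zero_iff_of_nonneg fun τ _ => hnn x hx τ).1 h2 τ (mem_univ τ)
        have h5 := hx.1 τ
        rcases mul_eq_zero.1 h4 with h6 | h6
        · rcases mul_eq_zero.1 h6 with h7 | h7
          · exact absurd h7 hτ
          · have := pow_eq_zero_iff (two_ne_zero) |>.1 h7
            linarith
        · linarith
      apply hQ
      obtain ⟨A, hA⟩ : ∃ A : Finset S, A = univ.filter fun σ => x σ ≠ 0 := ⟨_, rfl⟩
      obtain ⟨s, hs⟩ : ∃ s, s = ∑ τ, x τ ^ 2 := ⟨_, rfl⟩
      have h4 : (A.card : ℝ) * s = 1 := by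
        rw [← hx.2]
        calc (A.card : ℝ) * s = ∑ _σ ∈ A, s := by simp
          _ = ∑ σ ∈ A, x σ := sum_congr rfl fun σ hσ => by
              rw [hA] at hσ
              rw [hs, h3 σ (mem_filter.1 hσ).2]
          _ = ∑ σ, x σ := by
              rw [hA, sum_filter_ne_zero]
      have h5 : A.Nonempty := by
        rw [nonempty_iff_ne_empty]
        intro h6
        rw [h6] at h4
        simp at h4
      have h6 : (0 : ℝ) < A.card := by exact_mod_cast h5.card_pos
      refine ⟨⟨A, h5⟩, funext fun σ => ?_⟩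
      dsimp only
      by_cases h7 : x σ = 0
      · rw [if_neg, h7]
        rw [hA]
        simp [h7]
      · rw [if_pos, h3 σ h7, ← hs, div_eq_iff h6.ne']
        · linarith
        · rw [hA]
          simp [h7]

end Pool.Agent.P8H87.LP
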