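import Mathlib

/-!
# Constraint satisfaction problems and the basic linear program: definitions
-/

set_option autoImplicit false

namespace Pool.Agent.P8H87.LP

open Finset

/-- An instance of `CSP(F)`: a finite set `V` of variables and a finite nonempty family of
constraints; the constraint `i` applies the predicate `f i`, a member of `F`, to the `k` distinct
variables `e i 0, ..., e i (k - 1)`. -/
structure Inst (S : Type) (k : ℕ) (F : Set ((Fin k → S) → Bool)) : Type 1 where
  V : Type
  ι : Type
  [fV : Fintype V]
  [fι : Fintype ι]
  [ne : Nonempty ι]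
  e : ι → Fin k → V
  inj : ∀ i, Function.Injective (e i)
  f : ι → (Fin k → S) → Bool
  mem : ∀ i, f i ∈ F

attribute [instance] Inst.fV Inst.fι Inst.ne

variable {S : Type} [Fintype S] {k : ℕ} {F : Set ((Fin k → S) → Bool)}

/-- the fraction of the constraints which are satisfied by the assignment `τ` -/
noncomputable def Inst.valAt (I : Inst S k F) (τ : I.V → S) : ℝ :=
  (∑ i, if I.f i (fun j => τ (I.e i j)) = true then (1 : ℝ) else 0) / Fintype.card I.ι

/-- the value of the instance: the maximum over all assignments -/
noncomputable def Inst.val (I : Inst S k F) : ℝ := ⨆ τ : I.V → S, I.valAt τ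

open scoped Classical in
/-- the feasible solutions of the basic linear program of the instance -/
structure Sol (I : Inst S k F) where
  x : I.V → S → ℝ
  z : I.ι → (Fin k → S) → ℝ
  x_nonneg : ∀ v σ, 0 ≤ x v σ
  z_nonneg : ∀ i a, 0 ≤ z i a
  x_sum : ∀ v, ∑ σ, x v σ = 1
  z_sum : ∀ i, ∑ a, z i a = 1
  marg : ∀ i j σ, ∑ a ∈ univ.filter (fun a : Fin k → S => a j = σ), z i a = x (I.e i j) σ

/-- the value of a feasible solution -/
noncomputable def Sol.value {I : Inst S k F} (s : Sol I) : ℝ :=
  (∑ i, ∑ a, (if I.f i a = true then s.z i a else 0)) / Fintype.card I.ι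

/-- the value of the basic linear program -/
noncomputable def Inst.valLP (I : Inst S k F) : ℝ := sSup {v | ∃ s : Sol I, v = s.value}

open scoped Classical in
/-- the function `θ*` of the family `F`: the infimum of the values of the instances whose basic
linear program has a value of at least `c` (`1` if all predicates are unsatisfiable) -/
noncomputable def thetaStar (F : Set ((Fin k → S) → Bool)) (c : ℝ) : ℝ :=
  if ∀ f ∈ F, ∀ a, f a = false then 1 else sInf {v | ∃ I : Inst S k F, c ≤ I.valLP ∧ v = I.val}

/-- the threshold function `θ` -/
noncomputable def theta (F : Set ((Fin k → S) → Bool)) (c : ℝ) : ℝ := min c (thetaStar F c)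

/-- The sets `A j` are arc consistent for the predicate `f`: every element of `A j` is the `j`-th
coordinate of a satisfying tuple with all coordinates in the sets. -/
def ArcC (f : (Fin k → S) → Bool) (A : Fin k → Set S) : Prop :=
  ∀ j, ∀ σ ∈ A j, ∃ a : Fin k → S, f a = true ∧ a j = σ ∧ ∀ l, a l ∈ A l

/-- The instance is arc consistent: there are nonempty sets `A v` of symbols, one for each variable
`v`, which are arc consistent for all the constraints. -/
def Inst.Arc (I : Inst S k F) : Prop :=
  ∃ A : I.V → Set S, (∀ v, (A v).Nonempty) ∧ ∀ i, ArcC (I.f i) (fun j => A (I.e i j))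

open scoped Classical in
/-- the threshold of arc consistency: the infimum of the values of the arc consistent instances
(`1` if all predicates are unsatisfiable) -/
noncomputable def thetaArc (F : Set ((Fin k → S) → Bool)) : ℝ :=
  if ∀ f ∈ F, ∀ a, f a = false then 1 else sInf {v | ∃ I : Inst S k F, I.Arc ∧ v = I.val}

end Pool.Agent.P8H87.LP
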