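import Pool.Agent.P8H87.LP.Bij

/-!
# Maps which preserve exact tuples and have a strict Lyapunov function
-/

set_option autoImplicit false

namespace Pool.Agent.P8H87.LP

open Finset Filter Topology

section defs

variable {S : Type} [Fintype S] {k : ℕ}

/-- There is a continuous map `G` on the distributions which takes exact tuples to exact tuples for
all predicates of the family, and a continuous function which strictly increases along `G` outside
of a finite set `Q` of distributions. -/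
def Flow (F : Set ((Fin k → S) → Bool)) : Prop :=
  ∃ (Q : Set (S → ℝ)) (G : (S → ℝ) → S → ℝ) (L : (S → ℝ) → ℝ), Q.Finite ∧ Continuous G ∧
    Continuous L ∧ (∀ q ∈ Q, IsDist q) ∧ (∀ x, IsDist x → IsDist (G x)) ∧
    (∀ f ∈ F, ∀ x : Fin k → S → ℝ, Exact f x → Exact f (fun j => G (x j))) ∧
    (∀ x, IsDist x → L x ≤ L (G x)) ∧ ∀ x, IsDist x → x ∉ Q → L x < L (G x)

end defs

variable {S : Type} [Fintype S] {k : ℕ} {F : Set ((Fin k → S) → Bool)}

lemma exact_dist {f : (Fin k → S) → Bool} {x : Fin k → S → ℝ} (h : Exact f x) (j : Fin k) :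
    IsDist (x j) := by
  classical
  obtain ⟨z, z0, -, z1, zm⟩ := h
  constructor
  · intro σ
    rw [← zm j σ]
    exact sum_nonneg fun a _ => z0 a
  · rw [← z1]
    calc ∑ σ, x j σ = ∑ σ, ∑ a ∈ univ.filter (fun a : Fin k → S => a j = σ), z a :=
          sum_congr rfl fun σ _ => by
            rw [← zm j σ]
      _ = ∑ a, z a := sum_fiberwise univ (fun a : Fin k → S => a j) z

lemma dist_compact : IsCompact {x : S → ℝ | IsDist x} := by
  have : {x : S → ℝ | IsDist x} = stdSimplex ℝ S := by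
    ext x
    rfl
  rw [this]
  exact isCompact_stdSimplex ℝ S

lemma exact_closed (f : (Fin k → S) → Bool) : IsClosed {x : Fin k → S → ℝ | Exact f x} := by
  classical
  have h1 : IsCompact {z : (Fin k → S) → ℝ | IsDist z ∧ ∀ a, f a = false → z a = 0} := by
    have h2 : IsClosed {z : (Fin k → S) → ℝ | ∀ a, f a = false → z a = 0} := by
      have h5 : {z : (Fin k → S) → ℝ | ∀ a, f a = false → z a = 0} =
          ⋂ a, ⋂ (_ : f a = false), {z | z a = 0} := by
        ext z
        simp only [Set.mem_iInter]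
        rfl
      rw [h5]
      refine isClosed_iInter fun a => isClosed_iInter fun _ => ?_
      exact isClosed_eq (continuous_apply a) continuous_const
    exact (dist_compact (S := Fin k → S)).inter_right h2
  have h3 : {x : Fin k → S → ℝ | Exact f x} =
      (fun (z : (Fin k → S) → ℝ) (j : Fin k) (σ : S) =>
        ∑ a ∈ univ.filter (fun a : Fin k → S => a j = σ), z a) ''
        {z : (Fin k → S) → ℝ | IsDist z ∧ ∀ a, f a = false → z a = 0} := by
    ext x
    constructor
    · rintro ⟨z, z0, zf, z1, zm⟩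
      refine ⟨z, ⟨⟨z0, z1⟩, fun a ha => ?_⟩, ?_⟩
      · by_contra h
        have := zf a h
        rw [ha] at this
        exact Bool.false_ne_true this
      · funext j σ
        rw [← zm j σ]
    · rintro ⟨z, ⟨⟨z0, z1⟩, zf⟩, rfl⟩
      refine ⟨z, z0, fun a ha => ?_, z1, fun j σ => rfl⟩
      by_contra h
      exact ha (zf a (by simpa using h))
  rw [h3]
  refine (h1.image ?_).isClosed
  refine continuous_pi fun j => continuous_pi fun σ => ?_
  exact continuous_finsetSum _ fun a _ => continuous_apply a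

/-- tuples with entries in a finite set which are nearly exact are exact -/
lemma exists_gap (k : ℕ) {Q : Set (S → ℝ)} (hQ : Q.Finite) :
    ∃ γ : ℝ, 0 < γ ∧ ∀ (f : (Fin k → S) → Bool) (w y : Fin k → S → ℝ), (∀ j, w j ∈ Q) → Exact f y →
      (∀ j, dist (w j) (y j) < γ) → Exact f w := by
  classical
  have := hQ.to_subtype
  have h1 : ∀ p : ((Fin k → S) → Bool) × (Fin k → Q), ∀ᶠ γ in 𝓝[>] (0 : ℝ),
      ∀ y : Fin k → S → ℝ, Exact p.1 y → (∀ j, dist ((p.2 j : S → ℝ)) (y j) < γ) →
        Exact p.1 (fun j => (p.2 j : S → ℝ)) := by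
    intro p
    by_cases h : Exact p.1 (fun j => (p.2 j : S → ℝ))
    · exact Eventually.of_forall fun γ y _ _ => h
    · obtain ⟨r, hr, hball⟩ := Metric.isOpen_iff.1 (exact_closed p.1).isOpen_compl _ h
      filter_upwards [Ioo_mem_nhdsGT hr] with γ hγ y hy hd
      exfalso
      refine hball (a := y) ?_ hy
      rw [Metric.mem_ball, dist_comm]
      exact lt_of_le_of_lt ((dist_pi_le_iff hγ.1.le).2 fun j => (hd j).le) hγ.2
  obtain ⟨γ, h2, h3⟩ := ((eventually_all.2 h1).and self_mem_nhdsWithin).exists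
  exact ⟨γ, h3, fun f w y hw hy hd => h2 (f, fun j => ⟨w j, hw j⟩) y hy hd⟩

/-- **a Lyapunov function gives a robust rounding** -/
theorem rounds_of_flow (h : Flow F) : Rounds F := by
  classical
  obtain ⟨Q, G, L, hQ, hG, hL, hQd, hGd, hGe, hL1, hL2⟩ := h
  intro ε hε
  obtain ⟨γ, hγ, hgap⟩ := exists_gap k hQ
  have hGn : ∀ n, Continuous (G^[n]) := fun n => hG.iterate n
  have hGnd : ∀ n x, IsDist x → IsDist (G^[n] x) := by
    intro n
    induction n with
    | zero => exact fun x hx => hx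
    | succ n ih =>
      intro x hx
      rw [Function.iterate_succ_apply']
      exact hGd _ (ih x hx)
  -- the increase of the Lyapunov function
  obtain ⟨η, hη, hinc⟩ : ∃ η : ℝ, 0 < η ∧ ∀ x, IsDist x → (∀ q ∈ Q, γ / 2 ≤ dist x q) →
      η ≤ L (G x) - L x := by
    have hK : IsCompact {x : S → ℝ | IsDist x ∧ ∀ q ∈ Q, γ / 2 ≤ dist x q} := by
      refine dist_compact.inter_right ?_
      have h5 : {x : S → ℝ | ∀ q ∈ Q, γ / 2 ≤ dist x q} =
          ⋂ q, ⋂ (_ : q ∈ Q), {x | γ / 2 ≤ dist x q} := by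
        ext z
        simp only [Set.mem_iInter]
        rfl
      have h6 : IsClosed {x : S → ℝ | ∀ q ∈ Q, γ / 2 ≤ dist x q} := by
        rw [h5]
        refine isClosed_iInter fun q => isClosed_iInter fun _ => ?_
        exact isClosed_le continuous_const (continuous_id.dist continuous_const)
      exact h6
    by_cases hne : {x : S → ℝ | IsDist x ∧ ∀ q ∈ Q, γ / 2 ≤ dist x q}.Nonempty
    · obtain ⟨x0, hx0, hmin⟩ := hK.exists_isMinOn hne
        ((hL.comp hG).sub hL).continuousOn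
      refine ⟨L (G x0) - L x0, ?_, fun x hx hx2 => hmin ⟨hx, hx2⟩⟩
      have hx0Q : x0 ∉ Q := by
        intro h
        have := hx0.2 x0 h
        rw [dist_self] at this
        linarith
      linarith [hL2 x0 hx0.1 hx0Q]
    · exact ⟨1, one_pos, fun x hx hx2 => absurd ⟨x, hx, hx2⟩ hne⟩
  obtain ⟨B, hB⟩ : ∃ B : ℝ, ∀ x, IsDist x → |L x| ≤ B := by
    obtain ⟨B, hB⟩ := (dist_compact (S := S)).bddAbove_image (f := fun x => |L x|)
      (hL.abs).continuousOn
    exact ⟨B, fun x hx => hB ⟨x, hx, rfl⟩⟩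
  obtain ⟨N, hN⟩ := exists_nat_gt ((k : ℝ) * (2 * |B| / η) / ε + 1)
  have hq0 : (0 : ℝ) ≤ (k : ℝ) * (2 * |B| / η) / ε := by positivity
  have hN0 : 0 < N := by
    have : (0 : ℝ) < N := by linarith
    exact_mod_cast this
  have hN1 : (k : ℝ) * (2 * |B| / η) ≤ ε * N := by
    have h1 : (k : ℝ) * (2 * |B| / η) / ε < N := by linarith
    rw [div_lt_iff₀ hε] at h1
    linarith
  -- the number of bad steps
  have hbad : ∀ x, IsDist x → (((univ : Finset (Fin N)).filter fun n : Fin N =>
      ∀ q ∈ Q, γ / 2 ≤ dist (G^[(n : ℕ)] x) q).card : ℝ) ≤ 2 * |B| / η := by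
    intro x hx
    rw [le_div_iff₀ hη]
    have h1 : ∀ n : ℕ, 0 ≤ L (G^[n + 1] x) - L (G^[n] x) := by
      intro n
      rw [Function.iterate_succ_apply']
      linarith [hL1 _ (hGnd n x hx)]
    calc (((univ : Finset (Fin N)).filter fun n : Fin N =>
          ∀ q ∈ Q, γ / 2 ≤ dist (G^[(n : ℕ)] x) q).card : ℝ) * η =
          ∑ _n ∈ (univ : Finset (Fin N)).filter fun n : Fin N =>
          ∀ q ∈ Q, γ / 2 ≤ dist (G^[(n : ℕ)] x) q, η := by simp
      _ ≤ ∑ n ∈ (univ : Finset (Fin N)).filter fun n : Fin N =>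
          ∀ q ∈ Q, γ / 2 ≤ dist (G^[(n : ℕ)] x) q, (L (G^[(n : ℕ) + 1] x) - L (G^[(n : ℕ)] x)) := by
          refine sum_le_sum fun n hn => ?_
          rw [Function.iterate_succ_apply']
          exact hinc _ (hGnd n x hx) (mem_filter.1 hn).2
      _ ≤ ∑ n : Fin N, (L (G^[(n : ℕ) + 1] x) - L (G^[(n : ℕ)] x)) :=
          sum_le_univ_sum_of_nonneg fun n => h1 n
      _ = L (G^[N] x) - L x := by
          rw [Fin.sum_univ_eq_sum_range (fun n => L (G^[n + 1] x) - L (G^[n] x)) N,
            sum_range_sub (fun n => L (G^[n] x))]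
          rfl
      _ ≤ 2 * |B| := by
          have h2 := abs_le.1 (hB _ (hGnd N x hx))
          have h3 := abs_le.1 (hB _ hx)
          have h4 := le_abs_self B
          linarith
  -- uniform continuity
  obtain ⟨δ, hδ, huc⟩ : ∃ δ : ℝ, 0 < δ ∧ ∀ n : Fin N, ∀ x y : S → ℝ, IsDist x → IsDist y →
      (∀ σ, |x σ - y σ| ≤ δ) → dist (G^[(n : ℕ)] x) (G^[(n : ℕ)] y) < γ / 2 := by
    have h1 : ∀ n : Fin N, ∀ᶠ δ in 𝓝[>] (0 : ℝ), ∀ x y : S → ℝ, IsDist x → IsDist y →
        (∀ σ, |x σ - y σ| ≤ δ) → dist (G^[(n : ℕ)] x) (G^[(n : ℕ)] y) < γ / 2 := by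
      intro n
      have h2 := (dist_compact (S := S)).uniformContinuousOn_of_continuous
        (hGn n).continuousOn
      obtain ⟨d, hd, h3⟩ := Metric.uniformContinuousOn_iff.1 h2 (γ / 2) (by linarith)
      filter_upwards [Ioo_mem_nhdsGT hd] with δ hδ x y hx hy hxy
      refine h3 x hx y hy (lt_of_le_of_lt ((dist_pi_le_iff hδ.1.le).2 fun σ => ?_) hδ.2)
      rw [Real.dist_eq]
      exact hxy σ
    obtain ⟨δ, h2, h3⟩ := ((eventually_all.2 h1).and self_mem_nhdsWithin).exists
    exact ⟨δ, h3, h2⟩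
  obtain ⟨R, hR⟩ : ∃ R : Fin N → (S → ℝ) → S → ℝ, ∀ (n : Fin N) (x : S → ℝ),
      ((∃ q ∈ Q, dist (G^[(n : ℕ)] x) q < γ / 2) →
        R n x ∈ Q ∧ dist (G^[(n : ℕ)] x) (R n x) < γ / 2) ∧
      ((¬ ∃ q ∈ Q, dist (G^[(n : ℕ)] x) q < γ / 2) → R n x = x) := by
    refine ⟨fun n x => if h : ∃ q ∈ Q, dist (G^[(n : ℕ)] x) q < γ / 2 then h.choose else x,
      fun n x => ⟨fun h => ?_, fun h => ?_⟩⟩
    · dsimp only
      rw [dif_pos h]
      exact h.choose_spec
    · dsimp only
      rw [dif_neg h]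
  refine ⟨δ, hδ, N, R, hN0, fun n x hx => ?_, fun f hf' x y hx hy hxy => ?_⟩
  · by_cases h : ∃ q ∈ Q, dist (G^[(n : ℕ)] x) q < γ / 2
    · exact hQd _ ((hR n x).1 h).1
    · rw [(hR n x).2 h]
      exact hx
  obtain ⟨D, hD⟩ : ∃ D : Fin k → Finset (Fin N), ∀ j, D j = univ.filter fun n : Fin N =>
    ∀ q ∈ Q, γ / 2 ≤ dist (G^[(n : ℕ)] (x j)) q := ⟨_, fun _ => rfl⟩
  have hD2 : ((univ.biUnion D).card : ℝ) ≤ ε * N := by
    have h1 : (univ.biUnion D).card ≤ ∑ j : Fin k, (D j).card := card_biUnion_le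
    have h2 : ((univ.biUnion D).card : ℝ) ≤ ∑ j : Fin k, ((D j).card : ℝ) := by exact_mod_cast h1
    have h3 : ∑ j : Fin k, ((D j).card : ℝ) ≤ ∑ _j : Fin k, 2 * |B| / η :=
      sum_le_sum fun j _ => by
        rw [hD]
        exact hbad _ (hx j)
    have h4 : ∑ _j : Fin k, 2 * |B| / η = k * (2 * |B| / η) := by simp
    linarith
  have hyn : ∀ n : ℕ, Exact f (fun j => G^[n] (y j)) := by
    intro n
    induction n with
    | zero => exact hy
    | succ n ih =>
      have := hGe f hf' _ ih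
      simp only [Function.iterate_succ_apply']
      exact this
  have hsub : (univ \ univ.biUnion D) ⊆ univ.filter fun n : Fin N =>
      Exact f (fun j => R n (x j)) := by
    intro n hn
    rw [Finset.mem_sdiff] at hn
    have hgood : ∀ j, ∃ q ∈ Q, dist (G^[(n : ℕ)] (x j)) q < γ / 2 := by
      intro j
      by_contra hcon
      push Not at hcon
      apply hn.2
      refine mem_biUnion.2 ⟨j, mem_univ j, ?_⟩
      rw [hD]
      exact mem_filter.2 ⟨mem_univ n, hcon⟩
    refine mem_filter.2 ⟨mem_univ n, hgap f _ (fun j => G^[(n : ℕ)] (y j))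
      (fun j => ((hR n (x j)).1 (hgood j)).1) (hyn n) fun j => ?_⟩
    have h1 := ((hR n (x j)).1 (hgood j)).2
    have h2 := huc n (x j) (y j) (hx j) (exact_dist hy j) (hxy j)
    have h3 := dist_triangle (R n (x j)) (G^[(n : ℕ)] (x j)) (G^[(n : ℕ)] (y j))
    rw [dist_comm (R n (x j)) (G^[(n : ℕ)] (x j))] at h3
    linarith
  have h1 := card_le_card hsub
  rw [card_sdiff_of_subset (subset_univ _), card_univ, Fintype.card_fin] at h1
  have h2 : (univ.biUnion D).card ≤ N := by
    have := card_le_univ (univ.biUnion D)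
    rwa [Fintype.card_fin] at this
  have h3 : (N : ℝ) - (univ.biUnion D).card ≤ ((univ.filter fun n : Fin N =>
      Exact f (fun j => R n (x j))).card : ℝ) := by
    have h4 : ((N - (univ.biUnion D).card : ℕ) : ℝ) ≤ ((univ.filter fun n : Fin N =>
      Exact f (fun j => R n (x j))).card : ℝ) := by exact_mod_cast h1
    rwa [Nat.cast_sub h2] at h4
  have h5 : ((univ.filter fun n : Fin N => Exact f (fun j => R n (x j))).card : ℝ) =
      (@Finset.card (Fin N) (@Finset.filter (Fin N) (fun n => Exact f (fun j => R n (x j)))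
        (fun n => Classical.propDecidable _) univ) : ℝ) := by
    congr 1
  linarith

end Pool.Agent.P8H87.LP
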