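import Pool.Agent.P8H87.LP.Dd

/-!
# Families of cosets over a finite group
-/

set_option autoImplicit false

namespace Pool.Agent.P8H87.LP

open Finset Filter Topology

variable {S : Type} [Fintype S] {k : ℕ} {F : Set ((Fin k → S) → Bool)}

lemma push_heap [Group S] (x : S → ℝ) (σ : S) :
    push (fun a b c : S => a * b⁻¹ * c) x σ = ∑ β, ∑ γ, x β * x γ * x (γ * β⁻¹ * σ) := by
  classical
  unfold push
  refine sum_congr rfl fun β _ => ?_
  rw [mul_sum]
  refine sum_congr rfl fun γ _ => ?_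
  have e1 : ∑ η, x η * (if β * γ⁻¹ * η = σ then (1 : ℝ) else 0) = x (γ * β⁻¹ * σ) := by
    have e2 : ∀ η, x η * (if β * γ⁻¹ * η = σ then (1 : ℝ) else 0) =
        if η = γ * β⁻¹ * σ then x η else 0 := by
      intro η
      by_cases h : β * γ⁻¹ * η = σ
      · rw [if_pos h, if_pos, mul_one]
        rw [← h]
        group
      · rw [if_neg h, if_neg, mul_zero]
        intro h2
        apply h
        rw [h2]
        group
    rw [sum_congr rfl fun η _ => e2 η, sum_ite_eq']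
    simp
  have e3 : ∑ η, x η * (if (fun a b c : S => a * b⁻¹ * c) β γ η = σ then (1 : ℝ) else 0) =
      x (γ * β⁻¹ * σ) := e1
  rw [← e3, mul_assoc]

lemma heap_key [Group S] {x : S → ℝ} (hx : IsDist x) :
    ∑ σ, x σ ^ 2 - ∑ σ, push (fun a b c : S => a * b⁻¹ * c) x σ ^ 2 =
      ∑ β, ∑ γ, x β * x γ * ∑ σ, (x (γ * β⁻¹ * σ) -
        push (fun a b c : S => a * b⁻¹ * c) x σ) ^ 2 := by
  obtain ⟨y, hy⟩ : ∃ y, y = push (fun a b c : S => a * b⁻¹ * c) x := ⟨_, rfl⟩
  have hy2 : ∀ σ, y σ = ∑ β, ∑ γ, x β * x γ * x (γ * β⁻¹ * σ) := by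
    intro σ
    rw [hy, push_heap]
  rw [← hy]
  have e1 : ∀ β γ : S, ∑ σ, (x (γ * β⁻¹ * σ) - y σ) ^ 2 =
      ∑ σ, x σ ^ 2 - 2 * ∑ σ, x (γ * β⁻¹ * σ) * y σ + ∑ σ, y σ ^ 2 := by
    intro β γ
    have e2 : ∑ σ, x (γ * β⁻¹ * σ) ^ 2 = ∑ σ, x σ ^ 2 :=
      Equiv.sum_comp (Equiv.mulLeft (γ * β⁻¹)) (fun σ => x σ ^ 2)
    rw [← e2, mul_sum, ← sum_sub_distrib, ← sum_add_distrib]
    exact sum_congr rfl fun σ _ => by ring
  obtain ⟨s, hs⟩ : ∃ s, s = ∑ σ, x σ ^ 2 := ⟨_, rfl⟩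
  obtain ⟨w, hw⟩ : ∃ w, w = ∑ σ, y σ ^ 2 := ⟨_, rfl⟩
  have e3 : ∑ β, ∑ γ, x β * x γ * ∑ σ, x (γ * β⁻¹ * σ) * y σ = w := by
    rw [hw]
    calc ∑ β, ∑ γ, x β * x γ * ∑ σ, x (γ * β⁻¹ * σ) * y σ =
        ∑ β, ∑ γ, ∑ σ, x β * x γ * x (γ * β⁻¹ * σ) * y σ := by
          refine sum_congr rfl fun β _ => sum_congr rfl fun γ _ => ?_
          rw [mul_sum]
          exact sum_congr rfl fun σ _ => by ring
      _ = ∑ β, ∑ σ, ∑ γ, x β * x γ * x (γ * β⁻¹ * σ) * y σ :=
          sum_congr rfl fun β _ => sum_comm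
      _ = ∑ σ, ∑ β, ∑ γ, x β * x γ * x (γ * β⁻¹ * σ) * y σ := sum_comm
      _ = ∑ σ, y σ ^ 2 := by
          refine sum_congr rfl fun σ _ => ?_
          rw [pow_two]
          nth_rewrite 2 [hy2 σ]
          rw [sum_mul]
          refine sum_congr rfl fun β _ => ?_
          rw [sum_mul]
  have e4 : ∑ β, ∑ γ, x β * x γ = 1 := by
    calc ∑ β, ∑ γ, x β * x γ = ∑ β, x β * ∑ γ, x γ :=
          sum_congr rfl fun β _ => (mul_sum _ _ _).symm
      _ = 1 := by
          rw [hx.2]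
          simp only [mul_one, hx.2]
  have e5 : ∑ σ, x σ ^ 2 - ∑ σ, y σ ^ 2 = s - w := by rw [hs, hw]
  rw [e5]
  calc s - w = s * ∑ β, ∑ γ, x β * x γ - 2 * (∑ β, ∑ γ, x β * x γ *
        ∑ σ, x (γ * β⁻¹ * σ) * y σ) + w * ∑ β, ∑ γ, x β * x γ := by
        rw [e3, e4]
        ring
    _ = ∑ β, ∑ γ, (s * (x β * x γ) - 2 * (x β * x γ * ∑ σ, x (γ * β⁻¹ * σ) * y σ) +
        w * (x β * x γ)) := by
        simp only [sum_add_distrib, sum_sub_distrib, mul_sum]
    _ = _ := by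
        refine sum_congr rfl fun β _ => sum_congr rfl fun γ _ => ?_
        rw [e1 β γ, ← hs, ← hw]
        ring

open scoped Classical in
/-- **families of predicates closed under `a b⁻¹ c` in a finite group** -/
theorem flow_group [Group S] (h : ∀ f ∈ F, Closed3 (fun a b c : S => a * b⁻¹ * c) f) : Flow F := by
  refine ⟨Set.range fun A : {A : Finset S // A.Nonempty} => fun σ : S =>
    if σ ∈ A.1 then (1 : ℝ) / A.1.card else 0, push (fun a b c : S => a * b⁻¹ * c),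
    fun x => -∑ τ, x τ ^ 2,
    Set.finite_range _, push_cont _, by fun_prop, ?_, fun x hx => push_dist _ hx,
    fun f hf' x hx => push_exact (h f hf') hx, ?_⟩
  · rintro _ ⟨A, rfl⟩
    have hA : (0 : ℝ) < A.1.card := by exact_mod_cast A.2.card_pos
    constructor
    · intro σ
      dsimp only
      split_ifs
      · positivity
      · exact le_rfl
    · dsimp only
      rw [sum_ite_mem, univ_inter, sum_const, nsmul_eq_mul, mul_one_div, div_self hA.ne']
  · have hnn : ∀ x : S → ℝ, IsDist x → ∀ β γ, 0 ≤ x β * x γ * ∑ σ, (x (γ * β⁻¹ * σ) -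
        push (fun a b c : S => a * b⁻¹ * c) x σ) ^ 2 := by
      intro x hx β γ
      exact mul_nonneg (mul_nonneg (hx.1 β) (hx.1 γ)) (sum_nonneg fun σ _ => sq_nonneg _)
    refine ⟨fun x hx => ?_, fun x hx hQ => ?_⟩
    · have h1 := heap_key hx
      have h2 : 0 ≤ ∑ β, ∑ γ, x β * x γ * ∑ σ, (x (γ * β⁻¹ * σ) -
        push (fun a b c : S => a * b⁻¹ * c) x σ) ^ 2 :=
        sum_nonneg fun β _ => sum_nonneg fun γ _ => hnn x hx β γ
      dsimp only
      linarith
    · have h1 := heap_key hx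
      by_contra hcon
      dsimp only at hcon
      have h2 : ∑ β, ∑ γ, x β * x γ * ∑ σ, (x (γ * β⁻¹ * σ) -
        push (fun a b c : S => a * b⁻¹ * c) x σ) ^ 2 = 0 :=
        le_antisymm (by linarith) (sum_nonneg fun β _ => sum_nonneg fun γ _ => hnn x hx β γ)
      have h3 : ∀ β γ, x β ≠ 0 → x γ ≠ 0 → ∀ σ, x (γ * β⁻¹ * σ) =
          push (fun a b c : S => a * b⁻¹ * c) x σ := by
        intro β γ hβ hγ σ
        have h4 := (sum_eq_zero_iff_of_nonneg fun β _ => sum_nonneg fun γ _ => hnn x hx β γ).1 h2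
          β (mem_univ β)
        have h5 := (sum_eq_zero_iff_of_nonneg fun γ _ => hnn x hx β γ).1 h4 γ (mem_univ γ)
        rcases mul_eq_zero.1 h5 with h6 | h6
        · exact absurd h6 (mul_ne_zero hβ hγ)
        · have h7 := (sum_eq_zero_iff_of_nonneg fun σ _ => sq_nonneg _).1 h6 σ (mem_univ σ)
          have h8 := pow_eq_zero_iff (two_ne_zero) |>.1 h7
          linarith
      have h9 : ∀ β γ, x β ≠ 0 → x γ ≠ 0 → x γ = x β := by
        intro β γ hβ hγ
        have h4 := h3 β γ hβ hγ β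
        have h5 := h3 β β hβ hβ β
        rw [← h5] at h4
        simpa using h4
      apply hQ
      obtain ⟨A, hA⟩ : ∃ A : Finset S, A = univ.filter fun σ => x σ ≠ 0 := ⟨_, rfl⟩
      have h5 : A.Nonempty := by
        obtain ⟨σ, -, hσ⟩ := exists_ne_zero_of_sum_ne_zero (s := univ) (f := x) (by
          rw [hx.2]
          exact one_ne_zero)
        exact ⟨σ, by rw [hA]; simp [hσ]⟩
      obtain ⟨β, hβ⟩ := h5
      have hβ2 : x β ≠ 0 := by
        rw [hA] at hβ
        exact (mem_filter.1 hβ).2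
      have h4 : (A.card : ℝ) * x β = 1 := by
        rw [← hx.2]
        calc (A.card : ℝ) * x β = ∑ _σ ∈ A, x β := by simp
          _ = ∑ σ ∈ A, x σ := sum_congr rfl fun σ hσ => by
              rw [hA] at hσ
              rw [h9 β σ hβ2 (mem_filter.1 hσ).2]
          _ = ∑ σ, x σ := by
              rw [hA, sum_filter_ne_zero]
      have h6 : (0 : ℝ) < A.card := by exact_mod_cast Finset.card_pos.2 ⟨β, hβ⟩
      refine ⟨⟨A, ⟨β, hβ⟩⟩, funext fun σ => ?_⟩
      dsimp only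
      by_cases h7 : x σ = 0
      · rw [if_neg, h7]
        rw [hA]
        simp [h7]
      · rw [if_pos, h9 β σ hβ2 h7, div_eq_iff h6.ne']
        · linarith
        · rw [hA]
          simp [h7]

end Pool.Agent.P8H87.LP
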