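import Pool.Agent.P8H87.LP.Base

/-!
# Random thresholds make a nearly satisfying fractional solution arc consistent
-/

set_option autoImplicit false

namespace Pool.Agent.P8H87.LP

open Finset

variable {S : Type} [Fintype S] {k : ℕ} {F : Set ((Fin k → S) → Bool)}

/-- the threshold -/
noncomputable def th (q K : ℝ) (j : ℕ) : ℝ := (q * K ^ j)⁻¹

/-- the symbols with a large weight -/
def big (I : Inst S k F) (s : Sol I) (t : ℝ) (v : I.V) : Set S := {σ | t ≤ s.x v σ}

lemma big_nonempty [Nonempty S] (I : Inst S k F) (s : Sol I) {t : ℝ}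
    (ht : t ≤ (Fintype.card S : ℝ)⁻¹) (v : I.V) : (big I s t v).Nonempty := by
  by_contra hcon
  rw [Set.not_nonempty_iff_eq_empty] at hcon
  have h1 : ∀ σ, s.x v σ < (Fintype.card S : ℝ)⁻¹ := by
    intro σ
    by_contra h
    rw [not_lt] at h
    have : σ ∈ big I s t v := ht.trans h
    rw [hcon] at this
    exact this
  have h2 := s.x_sum v
  have h3 : ∑ σ, s.x v σ < ∑ _σ : S, (Fintype.card S : ℝ)⁻¹ :=
    sum_lt_sum_of_nonempty univ_nonempty fun σ _ => h1 σ
  rw [h2, sum_const, card_univ, nsmul_eq_mul, mul_inv_cancel₀] at h3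
  · exact lt_irrefl _ h3
  · have : 0 < Fintype.card S := Fintype.card_pos
    positivity

/-- the weight of the tuples which are not satisfying -/
noncomputable def def' {I : Inst S k F} (s : Sol I) (i : I.ι) : ℝ :=
  ∑ a, (if I.f i a = true then 0 else s.z i a)

lemma def_nonneg {I : Inst S k F} (s : Sol I) (i : I.ι) : 0 ≤ def' s i :=
  sum_nonneg fun a _ => by
    split_ifs
    · exact le_rfl
    · exact s.z_nonneg i a

lemma sum_def {I : Inst S k F} (s : Sol I) :
    ∑ i, def' s i = Fintype.card I.ι * (1 - s.value) := by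
  have h1 : ∀ i, def' s i = 1 - ∑ a, (if I.f i a = true then s.z i a else 0) := by
    intro i
    rw [← s.z_sum i, ← sum_sub_distrib]
    refine sum_congr rfl fun a _ => ?_
    split_ifs <;> ring
  have h2 : (Fintype.card I.ι : ℝ) ≠ 0 := (card_pos I).ne'
  simp only [h1]
  rw [sum_sub_distrib]
  unfold Sol.value
  rw [mul_sub, mul_div_cancel₀ _ h2]
  simp

/-- one constraint at one threshold -/
lemma arc_of_gap [Nonempty S] {I : Inst S k F} (s : Sol I) (i : I.ι) {t t' : ℝ} (ht : 0 < t)
    (htt : t = 2 * (Fintype.card S : ℝ) ^ k * t') (hd : def' s i ≤ t / 2)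
    (hgap : ∀ l σ, ¬ (t' ≤ s.x (I.e i l) σ ∧ s.x (I.e i l) σ < t)) :
    ArcC (I.f i) (fun j => big I s t (I.e i j)) := by
  classical
  intro j σ hσ
  have hσ' : t ≤ s.x (I.e i j) σ := hσ
  have hq : (0 : ℝ) < (Fintype.card S : ℝ) ^ k := by
    have : 0 < Fintype.card S := Fintype.card_pos
    positivity
  obtain ⟨a, ha1, ha2, ha3⟩ : ∃ a : Fin k → S, a j = σ ∧ I.f i a = true ∧ t' ≤ s.z i a := by
    by_contra hcon
    push Not at hcon
    have h1 : s.x (I.e i j) σ ≤ ∑ a ∈ univ.filter (fun a : Fin k → S => a j = σ),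
        ((if I.f i a = true then s.z i a else 0) + (if I.f i a = true then 0 else s.z i a)) := by
      rw [← s.marg i j σ]
      refine le_of_eq ?_
      convert! sum_congr rfl fun a _ => ?_
      split_ifs <;> ring
    rw [sum_add_distrib] at h1
    have h2 : ∑ a ∈ univ.filter (fun a : Fin k → S => a j = σ),
        (if I.f i a = true then 0 else s.z i a) ≤ def' s i :=
      sum_le_sum_of_subset_of_nonneg (filter_subset _ _) fun a _ _ => by
        split_ifs
        · exact le_rfl
        · exact s.z_nonneg i a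
    have ht' : 0 < t' := by
      by_contra h
      rw [not_lt] at h
      have : 2 * (Fintype.card S : ℝ) ^ k * t' ≤ 0 :=
        mul_nonpos_of_nonneg_of_nonpos (by positivity) h
      linarith
    have h3 : ∑ a ∈ univ.filter (fun a : Fin k → S => a j = σ),
        (if I.f i a = true then s.z i a else 0) < (Fintype.card S : ℝ) ^ k * t' := by
      have hb : ∀ a ∈ univ.filter (fun a : Fin k → S => a j = σ),
          (if I.f i a = true then s.z i a else 0) < t' := by
        intro a ha
        split_ifs with h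
        · exact hcon a (mem_filter.1 ha).2 h
        · exact ht'
      have hne : (univ.filter (fun a : Fin k → S => a j = σ)).Nonempty :=
        ⟨fun _ => σ, by simp⟩
      calc _ < ∑ _a ∈ univ.filter (fun a : Fin k → S => a j = σ), t' :=
            sum_lt_sum_of_nonempty hne hb
        _ = (univ.filter (fun a : Fin k → S => a j = σ)).card * t' := by
            rw [sum_const, nsmul_eq_mul]
        _ ≤ (Fintype.card S : ℝ) ^ k * t' := by
            refine mul_le_mul_of_nonneg_right ?_ ht'.le
            have h4 : (univ.filter (fun a : Fin k → S => a j = σ)).card ≤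
                Fintype.card (Fin k → S) := card_le_univ _
            rw [Fintype.card_fun, Fintype.card_fin] at h4
            exact_mod_cast h4
    nlinarith
  refine ⟨a, ha2, ha1, fun l => ?_⟩
  have h5 : s.z i a ≤ s.x (I.e i l) (a l) := by
    rw [← s.marg i l (a l)]
    exact single_le_sum (f := fun a => s.z i a) (fun b _ => s.z_nonneg i b) (by simp)
  by_contra h6
  exact hgap l (a l) ⟨ha3.trans h5, not_le.1 h6⟩

/-- the good threshold -/
lemma key [Nonempty S] {I : Inst S k F} (s : Sol I) {δ : ℝ} (hs : 1 - δ ≤ s.value) {M : ℕ}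
    (hM : 1 ≤ M) : ∃ (G : Finset I.ι) (A : I.V → Set S), (∀ v, (A v).Nonempty) ∧
      (∀ i ∈ G, ArcC (I.f i) (fun j => A (I.e i j))) ∧
      (Fintype.card I.ι : ℝ) * (1 - (k * Fintype.card S / M +
        2 * Fintype.card S * (2 * (Fintype.card S : ℝ) ^ k) ^ M * δ)) ≤ G.card := by
  classical
  obtain ⟨q, hq⟩ : ∃ q : ℝ, q = Fintype.card S := ⟨_, rfl⟩
  obtain ⟨K, hK⟩ : ∃ K : ℝ, K = 2 * (Fintype.card S : ℝ) ^ k := ⟨_, rfl⟩
  rw [← hK, ← hq]
  have hq1 : 1 ≤ q := by
    rw [hq]
    exact_mod_cast Fintype.card_pos (α := S)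
  have hK1 : 2 ≤ K := by
    have : 1 ≤ (Fintype.card S : ℝ) ^ k := one_le_pow₀ (by rw [← hq]; exact hq1)
    rw [hK]
    linarith
  have hm := card_pos I
  have hM0 : (0 : ℝ) < M := by exact_mod_cast hM
  -- the bad pairs
  let Bad : I.ι → ℕ → Prop := fun i j =>
    ¬ ArcC (I.f i) (fun l => big I s (th q K j) (I.e i l))
  have hth : ∀ j, 0 < th q K j := fun j => by
    unfold th
    positivity
  have hstep : ∀ j, th q K j = K * th q K (j + 1) := by
    intro j
    unfold th
    rw [pow_succ]
    field_simp
  have hmono : ∀ i j : ℕ, i ≤ j → th q K j ≤ th q K i := by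
    intro i j hij
    unfold th
    apply inv_anti₀ (by positivity)
    exact mul_le_mul_of_nonneg_left (pow_le_pow_right₀ (by linarith) hij) (by positivity)
  have hpt : ∀ i, ∀ j ∈ range M, (if Bad i j then (1 : ℝ) else 0) ≤
      2 * q * K ^ M * def' s i + ∑ l : Fin k, ∑ σ : S,
        (if th q K (j + 1) ≤ s.x (I.e i l) σ ∧ s.x (I.e i l) σ < th q K j then (1 : ℝ) else 0) := by
    intro i j hj
    have hS : 0 ≤ ∑ l : Fin k, ∑ σ : S,
        (if th q K (j + 1) ≤ s.x (I.e i l) σ ∧ s.x (I.e i l) σ < th q K j then (1 : ℝ) else 0) :=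
      sum_nonneg fun l _ => sum_nonneg fun σ _ => by split_ifs <;> norm_num
    have hd := def_nonneg s i
    have hd2 : 0 ≤ 2 * q * K ^ M * def' s i := by positivity
    split_ifs with hB
    · by_cases h1 : def' s i ≤ th q K j / 2
      · have h2 : ∃ l σ, th q K (j + 1) ≤ s.x (I.e i l) σ ∧ s.x (I.e i l) σ < th q K j := by
          by_contra hcon
          push Not at hcon
          exact hB (arc_of_gap s i (hth j) (t' := th q K (j + 1)) (by rw [← hK]; exact hstep j) h1
            fun l σ h => absurd h.2 (not_lt.2 (hcon l σ h.1)))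
        obtain ⟨l, σ, h3⟩ := h2
        have h4 : (1 : ℝ) ≤ ∑ l : Fin k, ∑ σ : S,
            (if th q K (j + 1) ≤ s.x (I.e i l) σ ∧ s.x (I.e i l) σ < th q K j then
              (1 : ℝ) else 0) := by
          calc (1 : ℝ) = (if th q K (j + 1) ≤ s.x (I.e i l) σ ∧ s.x (I.e i l) σ < th q K j then
              (1 : ℝ) else 0) := (if_pos h3).symm
            _ ≤ ∑ σ : S, (if th q K (j + 1) ≤ s.x (I.e i l) σ ∧ s.x (I.e i l) σ < th q K j then
              (1 : ℝ) else 0) := single_le_sum (f := fun σ : S =>
                (if th q K (j + 1) ≤ s.x (I.e i l) σ ∧ s.x (I.e i l) σ < th q K j then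
                  (1 : ℝ) else 0)) (fun σ _ => by split_ifs <;> norm_num) (mem_univ σ)
            _ ≤ _ := single_le_sum (f := fun l : Fin k => ∑ σ : S,
                (if th q K (j + 1) ≤ s.x (I.e i l) σ ∧ s.x (I.e i l) σ < th q K j then
                  (1 : ℝ) else 0)) (fun l _ => sum_nonneg fun σ _ => by
                    split_ifs <;> norm_num) (mem_univ l)
        linarith
      · rw [not_le] at h1
        have h2 : th q K M ≤ th q K j := hmono _ _ (mem_range.1 hj).le
        have h3 : 1 ≤ 2 * q * K ^ M * def' s i := by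
          have h4 : th q K M / 2 ≤ def' s i := by linarith
          have h5 : 2 * q * K ^ M * (th q K M / 2) = 1 := by
            unfold th
            field_simp
          rw [← h5]
          exact mul_le_mul_of_nonneg_left h4 (by positivity)
        linarith
    · linarith
  have hone : ∀ i (l : Fin k) (σ : S), ∑ j ∈ range M,
      (if th q K (j + 1) ≤ s.x (I.e i l) σ ∧ s.x (I.e i l) σ < th q K j then (1 : ℝ) else 0) ≤ 1 := by
    intro i l σ
    rw [← sum_filter, sum_const, nsmul_eq_mul, mul_one]
    have : ((range M).filter fun j => th q K (j + 1) ≤ s.x (I.e i l) σ ∧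
        s.x (I.e i l) σ < th q K j).card ≤ 1 := by
      rw [card_le_one]
      intro a ha b hb
      rw [mem_filter] at ha hb
      by_contra hne
      rcases lt_or_gt_of_ne hne with h | h
      · have h1 := hmono (a + 1) b h
        linarith [ha.2.1, hb.2.2]
      · have h1 := hmono (b + 1) a h
        linarith [hb.2.1, ha.2.2]
    exact_mod_cast this
  have hi : ∀ i, ∑ j ∈ range M, (if Bad i j then (1 : ℝ) else 0) ≤
      M * (2 * q * K ^ M * def' s i) + k * q := by
    intro i
    calc _ ≤ ∑ j ∈ range M, (2 * q * K ^ M * def' s i + ∑ l : Fin k, ∑ σ : S,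
        (if th q K (j + 1) ≤ s.x (I.e i l) σ ∧ s.x (I.e i l) σ < th q K j then (1 : ℝ) else 0)) :=
          sum_le_sum (hpt i)
      _ = M * (2 * q * K ^ M * def' s i) + ∑ l : Fin k, ∑ σ : S, ∑ j ∈ range M,
        (if th q K (j + 1) ≤ s.x (I.e i l) σ ∧ s.x (I.e i l) σ < th q K j then
          (1 : ℝ) else 0) := by
          rw [sum_add_distrib, sum_const, card_range, nsmul_eq_mul, sum_comm]
          congr 1
          refine sum_congr rfl fun l _ => ?_
          rw [sum_comm]
      _ ≤ M * (2 * q * K ^ M * def' s i) + ∑ _l : Fin k, ∑ _σ : S, (1 : ℝ) := by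
          have := sum_le_sum (s := univ) fun (l : Fin k) _ =>
            sum_le_sum (s := univ) fun (σ : S) _ => hone i l σ
          linarith
      _ = _ := by
          simp only [sum_const, card_univ, nsmul_eq_mul, mul_one, Fintype.card_fin]
          rw [hq]
  have htot : ∑ j ∈ range M, ∑ i, (if Bad i j then (1 : ℝ) else 0) ≤
      ∑ _j ∈ range M, (Fintype.card I.ι : ℝ) * (k * q / M + 2 * q * K ^ M * δ) := by
    rw [sum_comm]
    calc _ ≤ ∑ i, (M * (2 * q * K ^ M * def' s i) + k * q) := sum_le_sum fun i _ => hi i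
      _ = M * (2 * q * K ^ M * ∑ i, def' s i) + Fintype.card I.ι * (k * q) := by
          rw [sum_add_distrib, sum_const, card_univ, nsmul_eq_mul, mul_sum, mul_sum]
      _ ≤ M * (2 * q * K ^ M * (Fintype.card I.ι * δ)) + Fintype.card I.ι * (k * q) := by
          have h1 : ∑ i, def' s i ≤ Fintype.card I.ι * δ := by
            rw [sum_def]
            exact mul_le_mul_of_nonneg_left (by linarith) hm.le
          have h2 : (0 : ℝ) ≤ M * (2 * q * K ^ M) := by positivity
          nlinarith [mul_le_mul_of_nonneg_left h1 h2]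
      _ = _ := by
          rw [sum_const, card_range, nsmul_eq_mul]
          field_simp
          ring
  obtain ⟨j, hj, hjb⟩ := exists_le_of_sum_le (nonempty_range_iff.2 (by omega)) htot
  refine ⟨univ.filter (fun i => ¬ Bad i j), big I s (th q K j), fun v => ?_, fun i hi => ?_, ?_⟩
  · apply big_nonempty
    have h1 := hmono 0 j (Nat.zero_le j)
    refine h1.trans (le_of_eq ?_)
    unfold th
    rw [pow_zero, mul_one, hq]
  · exact not_not.1 (mem_filter.1 hi).2
  · have h1 : (univ.filter (fun i => Bad i j)).card + (univ.filter (fun i => ¬ Bad i j)).card =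
        Fintype.card I.ι := by
      rw [card_filter_add_card_filter_not, card_univ]
    have h2 : ((univ.filter (fun i => Bad i j)).card : ℝ) +
        (univ.filter (fun i => ¬ Bad i j)).card = Fintype.card I.ι := by exact_mod_cast h1
    have h3 : ((univ.filter (fun i => Bad i j)).card : ℝ) =
        ∑ i, (if Bad i j then (1 : ℝ) else 0) := by
      rw [← sum_filter, sum_const, nsmul_eq_mul, mul_one]
    rw [mul_sub, mul_one]
    linarith

end Pool.Agent.P8H87.LP
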