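import Pool.Agent.P8H87.LP.Bool

/-!
# Conjunctions with unary constraints
-/

set_option autoImplicit false

namespace Pool.Agent.P8H87.LP

open Finset Filter Topology

/-- a conjunction of a predicate with the property `P` and of arbitrary constraints on the single
coordinates -/
def WithLists {S : Type} {k : ℕ} (P : ((Fin k → S) → Bool) → Prop) (f : (Fin k → S) → Bool) :
    Prop :=
  ∃ (g : (Fin k → S) → Bool) (T : Fin k → Set S), P g ∧
    ∀ a, f a = true ↔ g a = true ∧ ∀ j, a j ∈ T j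

variable {S : Type} [Fintype S] {k : ℕ} {F : Set ((Fin k → S) → Bool)} {mn mx : Set S → S}

lemma loc_lists (hmn : ∀ A : Set S, A.Nonempty → mn A ∈ A) (hmx : ∀ A : Set S, A.Nonempty →
    mx A ∈ A) {f g : (Fin k → S) → Bool} {T : Fin k → Set S}
    (hfg : ∀ a, f a = true ↔ g a = true ∧ ∀ j, a j ∈ T j) (hg : LocC (hf mn mx) g) :
    LocC (hf mn mx) f := by
  classical
  intro A hA hArc
  have hT : ∀ j, ∀ σ ∈ A j, σ ∈ T j := by
    intro j σ hσ
    obtain ⟨a, h1, h2, -⟩ := hArc j σ hσ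
    rw [← h2]
    exact ((hfg a).1 h1).2 j
  obtain ⟨z, z0, zg, z1, zm⟩ := hg A hA (fun j σ hσ => by
    obtain ⟨a, h1, h2, h3⟩ := hArc j σ hσ
    exact ⟨a, ((hfg a).1 h1).1, h2, h3⟩)
  refine ⟨z, z0, fun a ha => (hfg a).2 ⟨zg a ha, fun j => hT j _ ?_⟩, z1, zm⟩
  have h1 : hf mn mx (A j) (a j) ≠ 0 := by
    rw [← zm j (a j)]
    have h2 : z a ≤ ∑ b ∈ univ.filter (fun b : Fin k → S => b j = a j), z b :=
      single_le_sum (f := z) (fun b _ => z0 b) (mem_filter.2 ⟨mem_univ a, rfl⟩)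
    have h3 : 0 < z a := lt_of_le_of_ne (z0 a) (Ne.symm ha)
    have h4 : 0 < ∑ b ∈ univ.filter (fun b : Fin k → S => b j = a j), z b := h3.trans_le h2
    refine ne_of_gt (lt_of_lt_of_eq h4 (sum_congr ?_ fun _ _ => rfl))
    ext b
    simp only [mem_filter]
  by_contra h2
  apply h1
  unfold hf
  rw [if_neg (fun h => h2 (by rw [← h]; exact hmn _ (hA j))),
    if_neg (fun h => h2 (by rw [← h]; exact hmx _ (hA j)))]
  norm_num

theorem arc_order_lists [Nonempty S] [LinearOrder S] (hk : 1 ≤ k)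
    (h : ∀ f ∈ F, WithLists (fun g => Lattice g ∨ Clause g ∨ Diseq g) f) (I : Inst S k F)
    (hI : I.Arc) : I.valLP = 1 := by
  obtain ⟨mn, mx, hmn, hmx⟩ := exists_mn (S := S)
  refine arc_of_loc (sel := hf mn mx) (fun A _ => hf_sel A) (fun f hf' => ?_) I hI
  obtain ⟨g, T, hg, hfg⟩ := h f hf'
  refine loc_lists (fun A hA => (hmn A hA).1) (fun A hA => (hmx A hA).1) hfg ?_
  rcases hg with h | h | h
  · exact lattice_loc hmn hmx hk h
  · exact clause_loc hmn hmx hk h
  · exact diseq_loc hmn hmx h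

theorem arc_bool_lists {F : Set ((Fin k → Bool) → Bool)} (hk : 1 ≤ k)
    (h : ∀ f ∈ F, WithLists (fun g => Affine g ∨ TwoVar g ∨ Clause g ∨ Lattice g) f)
    (I : Inst Bool k F) (hI : I.Arc) : I.valLP = 1 := by
  obtain ⟨mn, mx, hmn, hmx⟩ := exists_mn (S := Bool)
  refine arc_of_loc (sel := hf mn mx) (fun A _ => hf_sel A) (fun f hf' => ?_) I hI
  obtain ⟨g, T, hg, hfg⟩ := h f hf'
  refine loc_lists (fun A hA => (hmn A hA).1) (fun A hA => (hmx A hA).1) hfg ?_
  rcases hg with h | h | h | h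
  · exact affine_loc hmn hmx hk h
  · exact twoVar_loc hmn hmx h
  · exact clause_loc hmn hmx hk h
  · exact lattice_loc hmn hmx hk h

end Pool.Agent.P8H87.LP
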