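import Pool.Agent.P8H87.LP.Main

/-!
# Predicates for which arc consistency implies the feasibility of the linear program
-/

set_option autoImplicit false

namespace Pool.Agent.P8H87.LP

open Finset Filter Topology

section classes

variable {S : Type} {k : ℕ}

/-- the satisfying tuples are closed under the minimum and the maximum, coordinate by coordinate -/
def Lattice [LinearOrder S] (f : (Fin k → S) → Bool) : Prop :=
  ∀ a b, f a = true → f b = true →
    f (fun j => min (a j) (b j)) = true ∧ f (fun j => max (a j) (b j)) = true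

/-- a disjunction of literals `t ≤ a j` or `a j ≤ t` -/
def Clause [LinearOrder S] (f : (Fin k → S) → Bool) : Prop :=
  ∃ (J : Finset (Fin k)) (up : Fin k → Bool) (t : Fin k → S), ∀ a, f a = true ↔
    ∃ j ∈ J, if up j = true then t j ≤ a j else a j ≤ t j

/-- a constraint `a j ≠ π (a i)`, with `π` a permutation -/
def Diseq (f : (Fin k → S) → Bool) : Prop :=
  ∃ (i j : Fin k) (π : Equiv.Perm S), i ≠ j ∧ ∀ a, f a = true ↔ a j ≠ π (a i)

/-- a Boolean predicate which depends on at most two coordinates -/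
def TwoVar (f : (Fin k → Bool) → Bool) : Prop :=
  ∃ i j : Fin k, ∀ a b : Fin k → Bool, a i = b i → a j = b j → f a = f b

/-- a system of linear equations over the field with two elements: the satisfying tuples are closed
under the sum of three tuples -/
def Affine (f : (Fin k → Bool) → Bool) : Prop :=
  ∀ a b c, f a = true → f b = true → f c = true →
    f (fun j => xor (a j) (xor (b j) (c j))) = true

end classes

variable {S : Type} [Fintype S] {k : ℕ} {F : Set ((Fin k → S) → Bool)}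

open scoped Classical in
/-- the predicate has a local solution with the given marginals on arc consistent sets -/
def LocC (sel : Set S → S → ℝ) (f : (Fin k → S) → Bool) : Prop :=
  ∀ A : Fin k → Set S, (∀ j, (A j).Nonempty) → ArcC f A → ∃ z : (Fin k → S) → ℝ,
    (∀ a, 0 ≤ z a) ∧ (∀ a, z a ≠ 0 → f a = true) ∧ ∑ a, z a = 1 ∧
    ∀ j σ, ∑ a ∈ univ.filter (fun a : Fin k → S => a j = σ), z a = sel (A j) σ

lemma arc_of_loc [Nonempty S] {sel : Set S → S → ℝ}
    (hsel : ∀ A : Set S, A.Nonempty → (∀ σ, 0 ≤ sel A σ) ∧ ∑ σ, sel A σ = 1)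
    (h : ∀ f ∈ F, LocC sel f) (I : Inst S k F) (hI : I.Arc) : I.valLP = 1 := by
  obtain ⟨A, hA, hAI⟩ := hI
  choose z h1 h2 h3 h4 using fun i => h (I.f i) (I.mem i) (fun j => A (I.e i j))
    (fun j => hA _) (hAI i)
  exact valLP_eq_one (I := I)
    { x := fun v => sel (A v)
      z := z
      x_nonneg := fun v σ => (hsel _ (hA v)).1 σ
      z_nonneg := h1
      x_sum := fun v => (hsel _ (hA v)).2
      z_sum := h3
      marg := h4 } h2

section order

variable {mn mx : Set S → S}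

open scoped Classical in
/-- half the weight on each of two elements -/
noncomputable def hf (mn mx : Set S → S) (A : Set S) (σ : S) : ℝ :=
  ((if mn A = σ then 1 else 0) + (if mx A = σ then 1 else 0)) / 2

lemma hf_sel (A : Set S) : (∀ σ, 0 ≤ hf mn mx A σ) ∧ ∑ σ, hf mn mx A σ = 1 := by
  classical
  refine ⟨fun σ => ?_, ?_⟩
  · unfold hf
    split_ifs <;> norm_num
  · unfold hf
    rw [← sum_div, sum_add_distrib]
    simp

lemma loc_of_pair {f : (Fin k → S) → Bool}
    (h : ∀ A : Fin k → Set S, (∀ j, (A j).Nonempty) → ArcC f A → ∃ u w : Fin k → S,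
      f u = true ∧ f w = true ∧ ∀ j, (u j = mn (A j) ∧ w j = mx (A j)) ∨
        (u j = mx (A j) ∧ w j = mn (A j))) : LocC (hf mn mx) f := by
  classical
  intro A hA hf'
  obtain ⟨u, w, hu, hw, huw⟩ := h A hA hf'
  refine ⟨fun a => ((if a = u then 1 else 0) + (if a = w then 1 else 0)) / 2, fun a => ?_,
    fun a ha => ?_, ?_, fun j σ => ?_⟩
  · dsimp only
    split_ifs <;> norm_num
  · by_cases h1 : a = u
    · rw [h1, hu]
    · by_cases h2 : a = w
      · rw [h2, hw]
      · exfalso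
        apply ha
        simp [h1, h2]
  · rw [← sum_div, sum_add_distrib]
    simp
  · have e1 : ∀ v : Fin k → S, ∑ a ∈ univ.filter (fun a : Fin k → S => a j = σ),
        (if a = v then (1 : ℝ) else 0) = if v j = σ then 1 else 0 := by
      intro v
      rw [sum_ite_eq']
      simp
    have e2 : ∑ a ∈ univ.filter (fun a : Fin k → S => a j = σ),
        ((if a = u then (1 : ℝ) else 0) + (if a = w then 1 else 0)) / 2 =
        ((if u j = σ then (1 : ℝ) else 0) + (if w j = σ then 1 else 0)) / 2 := by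
      rw [← sum_div, sum_add_distrib, e1, e1]
    refine Eq.trans ?_ (e2.trans ?_)
    · congr!
    · unfold hf
      rcases huw j with ⟨h1, h2⟩ | ⟨h1, h2⟩
      · rw [h1, h2]
      · rw [h1, h2, add_comm]

variable [LinearOrder S] (hmn : ∀ A : Set S, A.Nonempty → mn A ∈ A ∧ ∀ x ∈ A, mn A ≤ x)
  (hmx : ∀ A : Set S, A.Nonempty → mx A ∈ A ∧ ∀ x ∈ A, x ≤ mx A)

include hmn hmx

lemma lattice_loc (hk : 1 ≤ k) {f : (Fin k → S) → Bool} (hf' : Lattice f) :
    LocC (hf mn mx) f := by
  classical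
  apply loc_of_pair
  intro A hA hArc
  obtain ⟨T, hT⟩ : ∃ T : Set (Fin k → S), T = {a | f a = true ∧ ∀ l, a l ∈ A l} := ⟨_, rfl⟩
  have hTm : ∀ a, a ∈ T ↔ f a = true ∧ ∀ l, a l ∈ A l := by
    intro a
    rw [hT]
    rfl
  obtain ⟨a0, h0⟩ : T.Nonempty := by
    obtain ⟨σ, hσ⟩ := hA ⟨0, hk⟩
    obtain ⟨a, h1, -, h3⟩ := hArc _ σ hσ
    exact ⟨a, by rw [hT]; exact ⟨h1, h3⟩⟩
  have hinf : ∀ a ∈ T, ∀ b ∈ T, (fun j => min (a j) (b j)) ∈ T := by
    intro a ha b hb
    rw [hT] at ha hb ⊢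
    refine ⟨(hf' a b ha.1 hb.1).1, fun l => ?_⟩
    show min (a l) (b l) ∈ A l
    rcases min_choice (a l) (b l) with h | h <;> rw [h]
    · exact ha.2 l
    · exact hb.2 l
  have hsup : ∀ a ∈ T, ∀ b ∈ T, (fun j => max (a j) (b j)) ∈ T := by
    intro a ha b hb
    rw [hT] at ha hb ⊢
    refine ⟨(hf' a b ha.1 hb.1).2, fun l => ?_⟩
    show max (a l) (b l) ∈ A l
    rcases max_choice (a l) (b l) with h | h <;> rw [h]
    · exact ha.2 l
    · exact hb.2 l
  have hfin : T.Finite := Set.toFinite T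
  have hne : hfin.toFinset.Nonempty := ⟨a0, hfin.mem_toFinset.2 h0⟩
  have hm : hfin.toFinset.inf' hne id ∈ T :=
    Finset.inf'_mem T (fun a ha b hb => hinf a ha b hb) _ _ _ fun a ha => hfin.mem_toFinset.1 ha
  have hM : hfin.toFinset.sup' hne id ∈ T :=
    Finset.sup'_mem T (fun a ha b hb => hsup a ha b hb) _ _ _ fun a ha => hfin.mem_toFinset.1 ha
  have hle : ∀ a ∈ T, hfin.toFinset.inf' hne id ≤ a := fun a ha =>
    Finset.inf'_le (f := id) (b := a) (hfin.mem_toFinset.2 ha)
  have hge : ∀ a ∈ T, a ≤ hfin.toFinset.sup' hne id := fun a ha =>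
    Finset.le_sup' (f := id) (b := a) (hfin.mem_toFinset.2 ha)
  have hmT := (hTm _).1 hm
  have hMT := (hTm _).1 hM
  refine ⟨_, _, hmT.1, hMT.1, fun j => Or.inl ⟨?_, ?_⟩⟩
  · obtain ⟨a, h1, h2, h3⟩ := hArc j (mn (A j)) (hmn _ (hA j)).1
    have h4 := hle a (by rw [hT]; exact ⟨h1, h3⟩) j
    rw [h2] at h4
    exact le_antisymm h4 ((hmn _ (hA j)).2 _ (hmT.2 j))
  · obtain ⟨a, h1, h2, h3⟩ := hArc j (mx (A j)) (hmx _ (hA j)).1
    have h4 := hge a (by rw [hT]; exact ⟨h1, h3⟩) j
    rw [h2] at h4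
    exact le_antisymm ((hmx _ (hA j)).2 _ (hMT.2 j)) h4

lemma diseq_loc {f : (Fin k → S) → Bool} (hf' : Diseq f) : LocC (hf mn mx) f := by
  classical
  apply loc_of_pair
  intro A hA hArc
  obtain ⟨i, j, π, hij, hfa⟩ := hf'
  have hji : j ≠ i := hij.symm
  by_cases h1 : mn (A j) ≠ π (mn (A i)) ∧ mx (A j) ≠ π (mx (A i))
  · refine ⟨fun l => mn (A l), fun l => mx (A l), (hfa _).2 h1.1, (hfa _).2 h1.2,
      fun l => Or.inl ⟨rfl, rfl⟩⟩
  · by_cases h2 : mx (A j) ≠ π (mn (A i)) ∧ mn (A j) ≠ π (mx (A i))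
    · refine ⟨fun l => if l = j then mx (A l) else mn (A l),
        fun l => if l = j then mn (A l) else mx (A l), (hfa _).2 ?_, (hfa _).2 ?_, fun l => ?_⟩
      · rw [if_pos rfl, if_neg hij]
        exact h2.1
      · rw [if_pos rfl, if_neg hij]
        exact h2.2
      · dsimp only
        by_cases hl : l = j
        · right
          rw [if_pos hl, if_pos hl]
          exact ⟨rfl, rfl⟩
        · left
          rw [if_neg hl, if_neg hl]
          exact ⟨rfl, rfl⟩
    · exfalso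
      have single : ∀ l, mn (A l) = mx (A l) → ∀ x ∈ A l, x = mn (A l) := by
        intro l h x hx
        exact le_antisymm (h ▸ (hmx _ (hA l)).2 x hx) ((hmn _ (hA l)).2 x hx)
      have hi : ∀ σ ∈ A i, ∃ τ ∈ A j, τ ≠ π σ := by
        intro σ hσ
        obtain ⟨a, h3, h4, h5⟩ := hArc i σ hσ
        refine ⟨a j, h5 j, ?_⟩
        rw [← h4]
        exact (hfa a).1 h3
      have hj : ∀ τ ∈ A j, ∃ σ ∈ A i, τ ≠ π σ := by
        intro τ hτ
        obtain ⟨a, h3, h4, h5⟩ := hArc j τ hτ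
        refine ⟨a i, h5 i, ?_⟩
        rw [← h4]
        exact (hfa a).1 h3
      have hA1 : mn (A j) = mx (A j) → False ∨ (mn (A j) ≠ π (mn (A i)) ∧
          mn (A j) ≠ π (mx (A i))) := by
        intro h
        right
        constructor
        · obtain ⟨τ, hτ, h3⟩ := hi _ (hmn _ (hA i)).1
          rwa [single j h τ hτ] at h3
        · obtain ⟨τ, hτ, h3⟩ := hi _ (hmx _ (hA i)).1
          rwa [single j h τ hτ] at h3
      have hA2 : mn (A i) = mx (A i) → (mn (A j) ≠ π (mn (A i)) ∧ mx (A j) ≠ π (mn (A i))) := by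
        intro h
        constructor
        · obtain ⟨σ, hσ, h3⟩ := hj _ (hmn _ (hA j)).1
          rwa [single i h σ hσ] at h3
        · obtain ⟨σ, hσ, h3⟩ := hj _ (hmx _ (hA j)).1
          rwa [single i h σ hσ] at h3
      have hc1 : mn (A j) = π (mn (A i)) ∨ mx (A j) = π (mx (A i)) := by
        by_contra hcon
        push Not at hcon
        exact h1 hcon
      have hc2 : mx (A j) = π (mn (A i)) ∨ mn (A j) = π (mx (A i)) := by
        by_contra hcon
        push Not at hcon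
        exact h2 hcon
      rcases hc1 with c1 | c1 <;> rcases hc2 with c2 | c2
      · have h := c1.trans c2.symm
        rcases hA1 h with h3 | h3
        · exact h3
        · exact h3.1 c1
      · have h := π.injective (c1.symm.trans c2)
        exact (hA2 h).1 c1
      · have h := π.injective (c2.symm.trans c1)
        exact (hA2 h).2 c2
      · have h := c2.trans c1.symm
        rcases hA1 h with h3 | h3
        · exact h3
        · exact h3.2 c2

lemma clause_loc (hk : 1 ≤ k) {f : (Fin k → S) → Bool} (hf' : Clause f) :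
    LocC (hf mn mx) f := by
  classical
  apply loc_of_pair
  intro A hA hArc
  obtain ⟨J, up, t, hfa⟩ := hf'
  obtain ⟨lit, hlit⟩ : ∃ lit : Fin k → S → Prop,
      ∀ j x, lit j x ↔ if up j = true then t j ≤ x else x ≤ t j := ⟨_, fun _ _ => Iff.rfl⟩
  have hfa' : ∀ a, f a = true ↔ ∃ j ∈ J, lit j (a j) := by
    intro a
    rw [hfa]
    simp only [hlit]
  obtain ⟨ex, hex⟩ : ∃ ex : Fin k → S, ∀ j, ex j = if up j = true then mx (A j) else mn (A j) :=
    ⟨_, fun _ => rfl⟩
  obtain ⟨ot, hot⟩ : ∃ ot : Fin k → S, ∀ j, ot j = if up j = true then mn (A j) else mx (A j) :=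
    ⟨_, fun _ => rfl⟩
  have hbest : ∀ j, ∀ x ∈ A j, lit j x → lit j (ex j) := by
    intro j x hx h
    rw [hlit] at h ⊢
    rw [hex]
    split_ifs with hu
    · rw [if_pos hu] at h
      exact h.trans ((hmx _ (hA j)).2 x hx)
    · rw [if_neg hu] at h
      exact ((hmn _ (hA j)).2 x hx).trans h
  have hworst : ∀ j, lit j (ot j) → ∀ x ∈ A j, lit j x := by
    intro j h x hx
    rw [hlit] at h ⊢
    rw [hot] at h
    split_ifs with hu
    · rw [if_pos hu, if_pos hu] at h
      exact h.trans ((hmn _ (hA j)).2 x hx)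
    · rw [if_neg hu, if_neg hu] at h
      exact ((hmx _ (hA j)).2 x hx).trans h
  have hotm : ∀ j, ot j ∈ A j := by
    intro j
    rw [hot]
    split_ifs
    · exact (hmn _ (hA j)).1
    · exact (hmx _ (hA j)).1
  by_cases hc : ∃ j ∈ J, lit j (ot j)
  · obtain ⟨j, hj, h1⟩ := hc
    exact ⟨fun l => mn (A l), fun l => mx (A l),
      (hfa' _).2 ⟨j, hj, hworst j h1 _ (hmn _ (hA j)).1⟩,
      (hfa' _).2 ⟨j, hj, hworst j h1 _ (hmx _ (hA j)).1⟩, fun l => Or.inl ⟨rfl, rfl⟩⟩
  · push Not at hc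
    obtain ⟨σ, hσ⟩ := hA ⟨0, hk⟩
    obtain ⟨a, h1, -, h3⟩ := hArc _ σ hσ
    obtain ⟨j0, hj0, hl0⟩ := (hfa' a).1 h1
    obtain ⟨b, g1, g2, g3⟩ := hArc j0 (ot j0) (hotm j0)
    obtain ⟨j1, hj1, hl1⟩ := (hfa' b).1 g1
    have hne : j1 ≠ j0 := by
      rintro rfl
      rw [g2] at hl1
      exact hc _ hj1 hl1
    have b0 := hbest j0 _ (h3 j0) hl0
    have b1 := hbest j1 _ (g3 j1) hl1
    have hpair : ∀ j, (ex j = mn (A j) ∧ ot j = mx (A j)) ∨ (ex j = mx (A j) ∧ ot j = mn (A j)) := by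
      intro j
      rw [hex, hot]
      split_ifs
      · exact Or.inr ⟨rfl, rfl⟩
      · exact Or.inl ⟨rfl, rfl⟩
    refine ⟨fun l => if l = j1 then ot l else ex l, fun l => if l = j1 then ex l else ot l,
      (hfa' _).2 ⟨j0, hj0, ?_⟩, (hfa' _).2 ⟨j1, hj1, ?_⟩, fun l => ?_⟩
    · rw [if_neg (Ne.symm hne)]
      exact b0
    · rw [if_pos rfl]
      exact b1
    · dsimp only
      by_cases hl : l = j1
      · rw [if_pos hl, if_pos hl]
        rcases hpair l with h | h
        · exact Or.inr ⟨h.2, h.1⟩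
        · exact Or.inl ⟨h.2, h.1⟩
      · rw [if_neg hl, if_neg hl]
        exact hpair l

end order

/-- minima and maxima exist -/
lemma exists_mn [Nonempty S] [LinearOrder S] :
    ∃ mn mx : Set S → S, (∀ A : Set S, A.Nonempty → mn A ∈ A ∧ ∀ x ∈ A, mn A ≤ x) ∧
      (∀ A : Set S, A.Nonempty → mx A ∈ A ∧ ∀ x ∈ A, x ≤ mx A) := by
  classical
  have h1 : ∀ A : Set S, ∃ m, A.Nonempty → m ∈ A ∧ ∀ x ∈ A, m ≤ x := by
    intro A
    by_cases h : A.Nonempty
    · obtain ⟨m, hm, hm2⟩ := Set.exists_min_image A id (Set.toFinite A) h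
      exact ⟨m, fun _ => ⟨hm, hm2⟩⟩
    · exact ⟨Classical.arbitrary S, fun h' => absurd h' h⟩
  have h2 : ∀ A : Set S, ∃ m, A.Nonempty → m ∈ A ∧ ∀ x ∈ A, x ≤ m := by
    intro A
    by_cases h : A.Nonempty
    · obtain ⟨m, hm, hm2⟩ := Set.exists_max_image A id (Set.toFinite A) h
      exact ⟨m, fun _ => ⟨hm, hm2⟩⟩
    · exact ⟨Classical.arbitrary S, fun h' => absurd h' h⟩
  choose mn hmn using h1
  choose mx hmx using h2
  exact ⟨mn, mx, hmn, hmx⟩

/-- the classes for ordered alphabets -/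
theorem arc_order [Nonempty S] [LinearOrder S] (hk : 1 ≤ k)
    (h : ∀ f ∈ F, Lattice f ∨ Clause f ∨ Diseq f) (I : Inst S k F) (hI : I.Arc) :
    I.valLP = 1 := by
  obtain ⟨mn, mx, hmn, hmx⟩ := exists_mn (S := S)
  refine arc_of_loc (sel := hf mn mx) (fun A _ => hf_sel A) (fun f hf' => ?_) I hI
  rcases h f hf' with h | h | h
  · exact lattice_loc hmn hmx hk h
  · exact clause_loc hmn hmx hk h
  · exact diseq_loc hmn hmx h

end Pool.Agent.P8H87.LP
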