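import Pool.Agent.P8H87.LP.Key

/-!
# Continuity at one of the threshold of the basic linear program
-/

set_option autoImplicit false

namespace Pool.Agent.P8H87.LP

open Finset Filter Topology

variable {S : Type} [Fintype S] {k : ℕ} {F : Set ((Fin k → S) → Bool)}

/-- the instance with a part of the constraints -/
def sub (I : Inst S k F) (G : Finset I.ι) (hG : G.Nonempty) : Inst S k F :=
  { V := I.V
    ι := {i // i ∈ G}
    ne := ⟨⟨_, hG.choose_spec⟩⟩
    e := fun i => I.e i.1
    inj := fun i => I.inj i.1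
    f := fun i => I.f i.1
    mem := fun i => I.mem i.1 }

lemma val_sub [Nonempty S] (I : Inst S k F) (G : Finset I.ι) (hG : G.Nonempty) :
    G.card * (sub I G hG).val ≤ Fintype.card I.ι * I.val := by
  classical
  obtain ⟨τ, hτ⟩ := exists_val (sub I G hG)
  have h1 : (G.card : ℝ) * (sub I G hG).val =
      ∑ i ∈ G, (if I.f i (fun j => τ (I.e i j)) = true then (1 : ℝ) else 0) := by
    rw [← hτ]
    unfold Inst.valAt
    have h2 : (Fintype.card (sub I G hG).ι : ℝ) = G.card := by
      have : Fintype.card (sub I G hG).ι = Fintype.card {i // i ∈ G} := rfl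
      rw [this, Fintype.card_coe]
    have h3 : (0 : ℝ) < G.card := by exact_mod_cast hG.card_pos
    rw [h2, mul_div_cancel₀ _ h3.ne']
    exact (sum_coe_sort G fun i => (if I.f i (fun j => τ (I.e i j)) = true then (1 : ℝ) else 0))
  rw [h1]
  calc _ ≤ ∑ i, (if I.f i (fun j => τ (I.e i j)) = true then (1 : ℝ) else 0) :=
        sum_le_univ_sum_of_nonneg fun i => by split_ifs <;> norm_num
    _ = Fintype.card I.ι * I.valAt τ := by
        unfold Inst.valAt
        rw [mul_div_cancel₀ _ (card_pos I).ne']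
    _ ≤ _ := mul_le_mul_of_nonneg_left (valAt_le_val I τ) (card_pos I).le

/-- the quantitative lower bound for one instance -/
lemma val_ge [Nonempty S] (h0 : ¬ ∀ f ∈ F, ∀ a, f a = false) {I : Inst S k F} (s : Sol I) {δ : ℝ}
    (hs : 1 - δ ≤ s.value) {M : ℕ} (hM : 1 ≤ M) :
    (1 - (k * Fintype.card S / M +
      2 * Fintype.card S * (2 * (Fintype.card S : ℝ) ^ k) ^ M * δ)) * thetaArc F ≤ I.val := by
  obtain ⟨G, A, hA, hG, hcard⟩ := key s hs hM
  obtain ⟨β, hβ⟩ : ∃ β : ℝ, β = 1 - (k * Fintype.card S / M +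
      2 * Fintype.card S * (2 * (Fintype.card S : ℝ) ^ k) ^ M * δ) := ⟨_, rfl⟩
  rw [← hβ] at hcard ⊢
  have hm := card_pos I
  have hθ := thetaArc_nonneg (F := F)
  rcases le_or_gt β 0 with h1 | h1
  · exact (mul_nonpos_of_nonpos_of_nonneg h1 hθ).trans (val_nonneg I)
  · have hGne : G.Nonempty := by
      rw [← Finset.card_pos]
      by_contra hcon
      have : (G.card : ℝ) ≤ 0 := by exact_mod_cast not_lt.1 hcon
      have h2 : 0 < (Fintype.card I.ι : ℝ) * β := mul_pos hm h1
      linarith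
    have h2 : (sub I G hGne).Arc := ⟨A, hA, fun i => hG i.1 i.2⟩
    have h3 : thetaArc F ≤ (sub I G hGne).val := thetaArc_le_val h0 _ h2
    have h4 := val_sub I G hGne
    have h5 : (Fintype.card I.ι : ℝ) * (β * thetaArc F) ≤ Fintype.card I.ι * I.val := by
      calc (Fintype.card I.ι : ℝ) * (β * thetaArc F) =
          (Fintype.card I.ι * β) * thetaArc F := by ring
        _ ≤ G.card * (sub I G hGne).val :=
            mul_le_mul hcard h3 hθ (Nat.cast_nonneg _)
        _ ≤ _ := h4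
    exact le_of_mul_le_mul_left h5 hm

/-- the quantitative lower bound -/
theorem thetaStar_ge [Nonempty S] {c : ℝ} (hc : c ≤ 1) {M : ℕ} (hM : 1 ≤ M) :
    (1 - (k * Fintype.card S / M +
      2 * Fintype.card S * (2 * (Fintype.card S : ℝ) ^ k) ^ M * (1 - c))) * thetaArc F ≤
      thetaStar F c := by
  have hθ := thetaArc_nonneg (F := F)
  have hθ1 := thetaArc_le_one (F := F)
  obtain ⟨κ, hκ⟩ : ∃ κ : ℝ, κ = 2 * Fintype.card S * (2 * (Fintype.card S : ℝ) ^ k) ^ M :=
    ⟨_, rfl⟩
  have hκ0 : 0 ≤ κ := by rw [hκ]; positivity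
  obtain ⟨α, hα⟩ : ∃ α : ℝ, α = k * Fintype.card S / M := ⟨_, rfl⟩
  have hα0 : 0 ≤ α := by rw [hα]; positivity
  rw [← hκ, ← hα]
  have hB : (1 - (α + κ * (1 - c))) * thetaArc F ≤ 1 := by
    have h1 : 0 ≤ κ * (1 - c) := mul_nonneg hκ0 (by linarith)
    nlinarith
  refine le_thetaStar hc hB fun h0 I hI => ?_
  refine le_of_forall_pos_le_add fun ε hε => ?_
  obtain ⟨s, hs⟩ := exists_value (δ := 1 - c + ε / (κ + 1)) hI (by
    have : 0 < ε / (κ + 1) := by positivity
    linarith)
  have h1 := val_ge h0 s hs hM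
  rw [← hκ, ← hα] at h1
  have h2 : κ * (ε / (κ + 1)) ≤ ε := by
    rw [mul_div_assoc', div_le_iff₀ (by positivity)]
    nlinarith
  have h3 : κ * (ε / (κ + 1)) * thetaArc F ≤ ε := by
    have h4 : 0 ≤ κ * (ε / (κ + 1)) := by positivity
    nlinarith
  nlinarith

/-- near one the threshold of the linear program is at least the one of arc consistency -/
theorem near_one [Nonempty S] {ε : ℝ} (hε : 0 < ε) :
    ∀ᶠ c in 𝓝[≤] (1 : ℝ), thetaArc F - ε < thetaStar F c := by
  have hθ := thetaArc_nonneg (F := F)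
  have hθ1 := thetaArc_le_one (F := F)
  obtain ⟨M, hM⟩ := exists_nat_gt (2 * (k * Fintype.card S) / ε + 1)
  have hk0 : (0 : ℝ) ≤ 2 * (k * Fintype.card S) / ε := by positivity
  have hM1 : 1 ≤ M := by
    have : (1 : ℝ) < M := by linarith
    exact_mod_cast this.le
  have hM0 : (0 : ℝ) < M := by exact_mod_cast hM1
  have hα : k * Fintype.card S / (M : ℝ) < ε / 2 := by
    rw [div_lt_iff₀ hM0]
    have h2 : 2 * (k * Fintype.card S) / ε < M := by linarith
    rw [div_lt_iff₀ hε] at h2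
    linarith
  obtain ⟨κ, hκ⟩ : ∃ κ : ℝ, κ = 2 * Fintype.card S * (2 * (Fintype.card S : ℝ) ^ k) ^ M :=
    ⟨_, rfl⟩
  have hκ0 : 0 ≤ κ := by rw [hκ]; positivity
  have h2 : ∀ᶠ c in 𝓝[≤] (1 : ℝ), 1 - ε / (2 * (κ + 1)) < c := by
    have : 1 - ε / (2 * (κ + 1)) < 1 := by
      have : 0 < ε / (2 * (κ + 1)) := by positivity
      linarith
    exact eventually_nhdsWithin_of_eventually_nhds (eventually_gt_nhds this)
  filter_upwards [h2, self_mem_nhdsWithin] with c hc1 hc2
  have hc3 : c ≤ 1 := hc2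
  have h3 := thetaStar_ge (F := F) hc3 hM1
  rw [← hκ] at h3
  obtain ⟨α, hα'⟩ : ∃ α : ℝ, α = k * Fintype.card S / (M : ℝ) := ⟨_, rfl⟩
  rw [← hα'] at h3 hα
  have hα0 : 0 ≤ α := by rw [hα']; positivity
  have h5 : (κ + 1) * (1 - c) < ε / 2 := by
    have h6 : 1 - c < ε / (2 * (κ + 1)) := by linarith
    rw [lt_div_iff₀ (by positivity)] at h6
    linarith
  have h6 : 0 ≤ κ * (1 - c) := mul_nonneg hκ0 (by linarith)
  have h7 : (α + κ * (1 - c)) * thetaArc F < ε := by
    have h8 : α + κ * (1 - c) < ε := by nlinarith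
    have h9 : (α + κ * (1 - c)) * thetaArc F ≤ α + κ * (1 - c) :=
      mul_le_of_le_one_right (by positivity) hθ1
    linarith
  nlinarith

theorem arc_le_star [Nonempty S] : thetaArc F ≤ thetaStar F 1 := by
  refine le_of_forall_pos_le_add fun ε hε => ?_
  have h1 := (near_one (F := F) hε).self_of_nhdsWithin (Set.self_mem_Iic)
  linarith

/-- **continuity** -/
theorem cont [Nonempty S] (h : thetaStar F 1 ≤ thetaArc F) :
    Tendsto (theta F) (𝓝[<] 1) (𝓝 (theta F 1)) := by
  have hθ1 := thetaStar_le_one (F := F) (c := 1) le_rfl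
  have h1 : theta F 1 = thetaStar F 1 := min_eq_right hθ1
  rw [h1, Metric.tendsto_nhds]
  intro ε hε
  have h2 : ∀ᶠ c in 𝓝[<] (1 : ℝ), 1 - ε < c :=
    eventually_nhdsWithin_of_eventually_nhds (eventually_gt_nhds (by linarith))
  have h3 : ∀ᶠ c in 𝓝[<] (1 : ℝ), thetaArc F - ε < thetaStar F c :=
    (near_one hε).filter_mono (nhdsWithin_mono _ Set.Iio_subset_Iic_self)
  filter_upwards [h2, h3, self_mem_nhdsWithin] with c hc1 hc2 hc3
  have hc4 : c < 1 := hc3
  have h4 : thetaStar F c ≤ thetaStar F 1 := thetaStar_mono hc4.le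
  rw [Real.dist_eq, abs_lt]
  unfold theta
  constructor
  · rcases min_choice c (thetaStar F c) with h | h <;> rw [h] <;> linarith
  · have := min_le_right c (thetaStar F c)
    linarith

/-- if arc consistent instances have the value one of the linear program -/
theorem star_le_arc [Nonempty S] (h : ∀ I : Inst S k F, I.Arc → I.valLP = 1) :
    thetaStar F 1 ≤ thetaArc F :=
  le_thetaArc (thetaStar_le_one le_rfl) fun h0 I hI => thetaStar_le_val h0 I (h I hI).ge

end Pool.Agent.P8H87.LP
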