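import Pool.Agent.P8H87.LP.Bool

/-!
# The rate, and all Boolean families of binary predicates
-/

set_option autoImplicit false

namespace Pool.Agent.P8H87.LP

open Finset Filter Topology

variable {S : Type} [Fintype S] {k : ℕ} {F : Set ((Fin k → S) → Bool)}

/-- the rate of convergence -/
theorem rate [Nonempty S] (k : ℕ) : ∃ C : ℝ, 0 < C ∧ ∀ F : Set ((Fin k → S) → Bool),
    ∀ c : ℝ, 0 ≤ c → c < 1 →
      thetaArc F - C / (1 + Real.log (1 / (1 - c))) ≤ thetaStar F c := by
  obtain ⟨q, hq⟩ : ∃ q : ℝ, q = Fintype.card S := ⟨_, rfl⟩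
  obtain ⟨K, hK⟩ : ∃ K : ℝ, K = 2 * (Fintype.card S : ℝ) ^ k := ⟨_, rfl⟩
  have hq1 : 1 ≤ q := by
    rw [hq]
    exact_mod_cast Fintype.card_pos (α := S)
  have hK2 : 2 ≤ K := by
    have : 1 ≤ (Fintype.card S : ℝ) ^ k := one_le_pow₀ (by rw [← hq]; exact hq1)
    rw [hK]
    linarith
  obtain ⟨lam, hlam⟩ : ∃ lam : ℝ, lam = Real.log K := ⟨_, rfl⟩
  have hlam1 : 1 / 2 ≤ lam := by
    rw [hlam]
    have h1 := Real.log_two_gt_d9
    have h2 := Real.log_le_log (by norm_num) hK2
    linarith
  have hkq : (0 : ℝ) ≤ k * q := by positivity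
  refine ⟨1 + 4 * lam + 2 * (4 * lam * (k * q) + 4 * q), by positivity, fun F c hc0 hc1 => ?_⟩
  have hθ := thetaArc_nonneg (F := F)
  have hθ1 := thetaArc_le_one (F := F)
  have hs := thetaStar_nonneg (F := F) hc1.le
  obtain ⟨C, hC⟩ : ∃ C : ℝ, C = 1 + 4 * lam + 2 * (4 * lam * (k * q) + 4 * q) := ⟨_, rfl⟩
  obtain ⟨L, hL⟩ : ∃ L : ℝ, L = Real.log (1 / (1 - c)) := ⟨_, rfl⟩
  rw [← hC, ← hL]
  have hc2 : 0 < 1 - c := by linarith
  have hL0 : 0 ≤ L := by
    rw [hL]
    apply Real.log_nonneg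
    rw [le_div_iff₀ hc2]
    linarith
  have hcL : 1 - c = Real.exp (-L) := by
    rw [hL, one_div, Real.log_inv, neg_neg, Real.exp_log hc2]
  have hA0 : 0 ≤ 4 * lam * (k * q) := by positivity
  by_cases hcase : L < 4 * lam
  · have h1 : 1 ≤ C / (1 + L) := by
      rw [one_le_div (by positivity)]
      rw [hC]
      linarith
    linarith
  · rw [not_lt] at hcase
    obtain ⟨M, hM⟩ : ∃ M : ℕ, M = ⌊L / (2 * lam)⌋₊ := ⟨_, rfl⟩
    have hx0 : 0 ≤ L / (2 * lam) := by positivity
    have hM1 : (M : ℝ) ≤ L / (2 * lam) := by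
      rw [hM]
      exact Nat.floor_le hx0
    have hM2 : L / (4 * lam) ≤ M := by
      have h1 := Nat.lt_floor_add_one (L / (2 * lam))
      rw [← hM] at h1
      have h2 : L / (2 * lam) = L / (4 * lam) + L / (4 * lam) := by
        field_simp
        ring
      have h3 : 1 ≤ L / (4 * lam) := by
        rw [le_div_iff₀ (by positivity)]
        linarith
      linarith
    have hL1 : 1 ≤ L := by linarith
    have hMpos : (0 : ℝ) < M := lt_of_lt_of_le (by positivity) hM2
    have hMn : 1 ≤ M := by exact_mod_cast hMpos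
    have h1 := thetaStar_ge (F := F) hc1.le hMn
    rw [← hK, ← hq] at h1
    have e1 : k * q / (M : ℝ) ≤ 4 * lam * (k * q) / L := by
      rw [div_le_div_iff₀ hMpos (by linarith)]
      have h3 : L ≤ 4 * lam * M := by
        rw [div_le_iff₀ (by positivity)] at hM2
        linarith
      calc k * q * L ≤ k * q * (4 * lam * M) := mul_le_mul_of_nonneg_left h3 hkq
        _ = 4 * lam * (k * q) * M := by ring
    have e2 : K ^ M * (1 - c) ≤ 2 / L := by
      have h3 : K ^ M = Real.exp (M * lam) := by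
        rw [hlam, Real.exp_nat_mul, Real.exp_log (by linarith)]
      have h4 : (M : ℝ) * lam ≤ L / 2 := by
        have h5 := mul_le_mul_of_nonneg_right hM1 (by linarith : (0 : ℝ) ≤ lam)
        have h6 : L / (2 * lam) * lam = L / 2 := by
          field_simp
        linarith
      rw [h3, hcL, ← Real.exp_add]
      have h5 : Real.exp (M * lam + -L) ≤ Real.exp (-(L / 2)) := Real.exp_le_exp.2 (by linarith)
      refine h5.trans ?_
      have h6 := Real.add_one_le_exp (L / 2)
      rw [Real.exp_neg, inv_eq_one_div, div_le_div_iff₀ (Real.exp_pos _) (by linarith)]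
      linarith
    have e3 : (k * q / (M : ℝ) + 2 * q * K ^ M * (1 - c)) ≤ (4 * lam * (k * q) + 4 * q) / L := by
      have h3 : 2 * q * K ^ M * (1 - c) ≤ 2 * q * (2 / L) := by
        rw [mul_assoc (2 * q)]
        exact mul_le_mul_of_nonneg_left e2 (by positivity)
      have h4 : (4 * lam * (k * q) + 4 * q) / L = 4 * lam * (k * q) / L + 2 * q * (2 / L) := by
        rw [add_div]
        ring
      rw [h4]
      linarith
    have e4 : (4 * lam * (k * q) + 4 * q) / L ≤ C / (1 + L) := by
      rw [div_le_div_iff₀ (by linarith) (by linarith)]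
      have h3 : 0 ≤ 4 * lam * (k * q) + 4 * q := by positivity
      have h4 : (4 * lam * (k * q) + 4 * q) * (1 + L) ≤
          (4 * lam * (k * q) + 4 * q) * (2 * L) :=
        mul_le_mul_of_nonneg_left (by linarith) h3
      have h5 : 2 * (4 * lam * (k * q) + 4 * q) * L ≤ C * L :=
        mul_le_mul_of_nonneg_right (by rw [hC]; linarith) hL0
      linarith
    have h2 : 0 ≤ k * q / (M : ℝ) + 2 * q * K ^ M * (1 - c) := by positivity
    have h3 : (k * q / (M : ℝ) + 2 * q * K ^ M * (1 - c)) * thetaArc F ≤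
        k * q / (M : ℝ) + 2 * q * K ^ M * (1 - c) := mul_le_of_le_one_right h2 hθ1
    nlinarith

/-- all Boolean predicates of arity two depend on two coordinates only -/
lemma twoVar_two (f : (Fin 2 → Bool) → Bool) : TwoVar f := by
  refine ⟨0, 1, fun a b h0 h1 => ?_⟩
  congr 1
  funext j
  fin_cases j
  · exact h0
  · exact h1

end Pool.Agent.P8H87.LP
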