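import Pool.Agent.P8H87.LP.Rate

/-!
# Robust rounding to exact solutions of the linear program implies continuity at one
-/

set_option autoImplicit false

namespace Pool.Agent.P8H87.LP

open Finset Filter Topology

section defs

variable {S : Type} [Fintype S] {k : ℕ}

/-- `x` is a probability distribution on the alphabet -/
def IsDist (x : S → ℝ) : Prop := (∀ σ, 0 ≤ x σ) ∧ ∑ σ, x σ = 1

open scoped Classical in
/-- `x` is the tuple of the marginals of a probability distribution on the satisfying tuples of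
`f` -/
def Exact (f : (Fin k → S) → Bool) (x : Fin k → S → ℝ) : Prop :=
  ∃ z : (Fin k → S) → ℝ, (∀ a, 0 ≤ z a) ∧ (∀ a, z a ≠ 0 → f a = true) ∧ ∑ a, z a = 1 ∧
    ∀ j σ, ∑ a ∈ univ.filter (fun a : Fin k → S => a j = σ), z a = x j σ

open scoped Classical in
/-- There is a robust rounding to exact solutions: for every `ε > 0` there are `δ > 0` and finitely
many maps `R n` on the distributions, such that for all predicates `f` of the family and all tuples
`x` of distributions which are `δ`-close to an exact tuple, all but `ε N` of the `N` maps take `x`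
to an exact tuple. -/
def Rounds (F : Set ((Fin k → S) → Bool)) : Prop :=
  ∀ ε : ℝ, 0 < ε → ∃ δ : ℝ, 0 < δ ∧ ∃ (N : ℕ) (R : Fin N → (S → ℝ) → S → ℝ), 0 < N ∧
    (∀ n x, IsDist x → IsDist (R n x)) ∧
    ∀ f ∈ F, ∀ x y : Fin k → S → ℝ, (∀ j, IsDist (x j)) → Exact f y →
      (∀ j σ, |x j σ - y j σ| ≤ δ) →
      (1 - ε) * N ≤ (univ.filter fun n => Exact f (fun j => R n (x j))).card

end defs

variable {S : Type} [Fintype S] {k : ℕ} {F : Set ((Fin k → S) → Bool)}

open scoped Classical in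
lemma near_exact {I : Inst S k F} (s : Sol I) (i : I.ι) {δ : ℝ} (hδ : δ ≤ 1 / 2)
    (h : 1 - ∑ a, (if I.f i a = true then s.z i a else 0) ≤ δ) :
    ∃ y, Exact (I.f i) y ∧ ∀ j σ, |s.x (I.e i j) σ - y j σ| ≤ δ := by
  obtain ⟨p, hp⟩ : ∃ p, p = ∑ a, (if I.f i a = true then s.z i a else 0) := ⟨_, rfl⟩
  rw [← hp] at h
  have hp0 : 0 < p := by linarith
  have hp1 : p ≤ 1 := by
    rw [hp]
    exact inner_le s i
  refine ⟨fun j σ => (∑ a ∈ univ.filter (fun a : Fin k → S => a j = σ),
    (if I.f i a = true then s.z i a else 0)) / p, ⟨fun a => (if I.f i a = true then s.z i a else 0)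
      / p, fun a => ?_, fun a ha => ?_, ?_, fun j σ => ?_⟩, fun j σ => ?_⟩
  · have := s.z_nonneg i a
    dsimp only
    split_ifs
    · positivity
    · simp
  · by_contra hf'
    apply ha
    simp [hf']
  · rw [← sum_div, ← hp, div_self hp0.ne']
  · exact (sum_div _ _ _).symm
  · obtain ⟨A, hA⟩ : ∃ A, A = ∑ a ∈ univ.filter (fun a : Fin k → S => a j = σ),
      (if I.f i a = true then s.z i a else 0) := ⟨_, rfl⟩
    obtain ⟨B, hB⟩ : ∃ B, B = ∑ a ∈ univ.filter (fun a : Fin k → S => a j = σ),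
      (if I.f i a = true then 0 else s.z i a) := ⟨_, rfl⟩
    have e1 : s.x (I.e i j) σ = A + B := by
      rw [← s.marg i j σ, hA, hB, ← sum_add_distrib]
      exact sum_congr rfl fun a _ => by split_ifs <;> simp
    have hA0 : 0 ≤ A := by
      rw [hA]
      exact sum_nonneg fun a _ => by
        have := s.z_nonneg i a
        split_ifs
        · exact this
        · exact le_rfl
    have hB0 : 0 ≤ B := by
      rw [hB]
      exact sum_nonneg fun a _ => by
        have := s.z_nonneg i a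
        split_ifs
        · exact le_rfl
        · exact this
    have hAp : A ≤ p := by
      rw [hA, hp]
      exact sum_le_univ_sum_of_nonneg fun a => by
        have := s.z_nonneg i a
        split_ifs
        · exact this
        · exact le_rfl
    have hBp : B ≤ 1 - p := by
      have e2 : 1 - p = ∑ a, (if I.f i a = true then 0 else s.z i a) := by
        rw [← s.z_sum i, hp, ← sum_sub_distrib]
        exact sum_congr rfl fun a _ => by split_ifs <;> simp
      rw [hB, e2]
      exact sum_le_univ_sum_of_nonneg fun a => by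
        have := s.z_nonneg i a
        split_ifs
        · exact le_rfl
        · exact this
    show |s.x (I.e i j) σ - (∑ a ∈ univ.filter (fun a : Fin k → S => a j = σ),
      (if I.f i a = true then s.z i a else 0)) / p| ≤ δ
    rw [← hA, e1]
    have h3 : A / p ≤ A + (1 - p) := by
      rw [div_le_iff₀ hp0]
      nlinarith
    have h4 : A ≤ A / p := by
      rw [le_div_iff₀ hp0]
      nlinarith
    rw [abs_le]
    constructor <;> linarith

open scoped Classical in
lemma round_val [Nonempty S] (h0 : ¬ ∀ f ∈ F, ∀ a, f a = false) {I : Inst S k F} (s : Sol I)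
    {η ε δ : ℝ} (hε : ε ≤ 1) (hδ0 : 0 < δ) (hδ : δ ≤ 1 / 2) (hs : 1 - η ≤ s.value)
    {N : ℕ} (R : Fin N → (S → ℝ) → S → ℝ) (hN : 0 < N) (h1 : ∀ n x, IsDist x → IsDist (R n x))
    (h2 : ∀ f ∈ F, ∀ x y : Fin k → S → ℝ, (∀ j, IsDist (x j)) → Exact f y →
      (∀ j σ, |x j σ - y j σ| ≤ δ) →
      (1 - ε) * N ≤ (univ.filter fun n => Exact f (fun j => R n (x j))).card) :
    ((1 - ε) * (1 - η / δ)) * thetaStar F 1 ≤ I.val := by
  have hm := card_pos I
  obtain ⟨m, hm'⟩ : ∃ m : ℝ, m = Fintype.card I.ι := ⟨_, rfl⟩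
  rw [← hm'] at hm
  obtain ⟨p, hp⟩ : ∃ p : I.ι → ℝ, ∀ i, p i = ∑ a, (if I.f i a = true then s.z i a else 0) :=
    ⟨_, fun _ => rfl⟩
  have hp1 : ∀ i, p i ≤ 1 := fun i => by
    rw [hp]
    exact inner_le s i
  have hsum : ∑ i, (1 - p i) ≤ η * m := by
    have e1 : s.value = (∑ i, p i) / m := by
      unfold Sol.value
      rw [hm']
      congr 1
      exact sum_congr rfl fun i _ => (hp i).symm
    rw [e1, le_div_iff₀ hm] at hs
    rw [sum_sub_distrib]
    simp only [sum_const, card_univ, nsmul_eq_mul, mul_one]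
    rw [← hm']
    linarith
  obtain ⟨Gd, hGd⟩ : ∃ Gd : Finset I.ι, Gd = univ.filter fun i => 1 - p i ≤ δ := ⟨_, rfl⟩
  have hbad : m * (1 - η / δ) ≤ Gd.card := by
    have e1 : (m : ℝ) = Gd.card + (univ.filter fun i => ¬ (1 - p i ≤ δ)).card := by
      rw [hGd, hm', ← card_univ (α := I.ι), ← card_filter_add_card_filter_not (s := univ)
        (fun i => 1 - p i ≤ δ)]
      push_cast
      rfl
    have e2 : ((univ.filter fun i => ¬ (1 - p i ≤ δ)).card : ℝ) * δ ≤ η * m := by
      calc ((univ.filter fun i => ¬ (1 - p i ≤ δ)).card : ℝ) * δ =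
          ∑ _i ∈ univ.filter fun i => ¬ (1 - p i ≤ δ), δ := by simp
        _ ≤ ∑ i ∈ univ.filter fun i => ¬ (1 - p i ≤ δ), (1 - p i) :=
            sum_le_sum fun i hi => (not_le.1 (mem_filter.1 hi).2).le
        _ ≤ ∑ i, (1 - p i) := sum_le_univ_sum_of_nonneg fun i => by linarith [hp1 i]
        _ ≤ _ := hsum
    have e3 : ((univ.filter fun i => ¬ (1 - p i ≤ δ)).card : ℝ) ≤ η * m / δ := by
      rw [le_div_iff₀ hδ0]
      exact e2
    have e4 : m * (1 - η / δ) = m - η * m / δ := by ring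
    rw [e4]
    linarith
  have hex : ∀ i ∈ Gd, (1 - ε) * N ≤ ((univ : Finset (Fin N)).filter fun n =>
      Exact (I.f i) (fun j => R n (s.x (I.e i j)))).card := by
    intro i hi
    rw [hGd] at hi
    have h3 := (mem_filter.1 hi).2
    rw [hp] at h3
    obtain ⟨y, hy1, hy2⟩ := near_exact s i hδ h3
    exact h2 (I.f i) (I.mem i) (fun j => s.x (I.e i j)) y
      (fun j => ⟨fun σ => s.x_nonneg _ σ, s.x_sum _⟩) hy1 hy2
  obtain ⟨β, hβ⟩ : ∃ β, β = (1 - ε) * (1 - η / δ) := ⟨_, rfl⟩
  rw [← hβ]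
  have hdc : ∑ _n : Fin N, β * m ≤ ∑ n : Fin N, ((univ.filter fun i : I.ι =>
      Exact (I.f i) (fun j => R n (s.x (I.e i j)))).card : ℝ) := by
    have e1 : ∑ n : Fin N, ((univ.filter fun i : I.ι =>
        Exact (I.f i) (fun j => R n (s.x (I.e i j)))).card : ℝ) =
        ∑ i : I.ι, (((univ : Finset (Fin N)).filter fun n =>
        Exact (I.f i) (fun j => R n (s.x (I.e i j)))).card : ℝ) := by
      simp only [card_filter, Nat.cast_sum]
      rw [sum_comm]
    rw [e1]
    calc ∑ _n : Fin N, β * m = N * (β * m) := by simp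
      _ = (m * (1 - η / δ)) * ((1 - ε) * N) := by rw [hβ]; ring
      _ ≤ Gd.card * ((1 - ε) * N) := by
          refine mul_le_mul_of_nonneg_right hbad ?_
          have : 0 ≤ 1 - ε := by linarith
          positivity
      _ = ∑ _i ∈ Gd, (1 - ε) * N := by simp
      _ ≤ ∑ i ∈ Gd, (((univ : Finset (Fin N)).filter fun n =>
        Exact (I.f i) (fun j => R n (s.x (I.e i j)))).card : ℝ) := sum_le_sum hex
      _ ≤ _ := sum_le_univ_sum_of_nonneg fun i => Nat.cast_nonneg _
  have : Nonempty (Fin N) := ⟨⟨0, hN⟩⟩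
  obtain ⟨n, -, hn⟩ := exists_le_of_sum_le (s := (univ : Finset (Fin N))) univ_nonempty hdc
  have hθ : 0 ≤ thetaStar F 1 := thetaStar_nonneg le_rfl
  rcases le_or_gt β 0 with hβ0 | hβ0
  · exact (mul_nonpos_of_nonpos_of_nonneg hβ0 hθ).trans (val_nonneg I)
  obtain ⟨G, hG⟩ : ∃ G : Finset I.ι, G = univ.filter fun i : I.ι =>
      Exact (I.f i) (fun j => R n (s.x (I.e i j))) := ⟨_, rfl⟩
  rw [← hG] at hn
  have hGne : G.Nonempty := by
    rw [← Finset.card_pos]
    by_contra hcon
    have h3 : (G.card : ℝ) ≤ 0 := by exact_mod_cast not_lt.1 hcon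
    have h4 : 0 < β * m := mul_pos hβ0 hm
    linarith
  have hGE : ∀ i ∈ G, Exact (I.f i) (fun j => R n (s.x (I.e i j))) := by
    intro i hi
    rw [hG] at hi
    exact (mem_filter.1 hi).2
  choose z z1 z2 z3 z4 using fun i : {i // i ∈ G} => hGE i.1 i.2
  have hdist : ∀ v, IsDist (R n (s.x v)) := fun v => h1 n _ ⟨fun σ => s.x_nonneg v σ, s.x_sum v⟩
  have hLP : (sub I G hGne).valLP = 1 :=
    valLP_eq_one (I := sub I G hGne)
      { x := fun v => R n (s.x v)
        z := z
        x_nonneg := fun v σ => (hdist v).1 σ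
        z_nonneg := z1
        x_sum := fun v => (hdist v).2
        z_sum := z3
        marg := z4 } z2
  have h5 : thetaStar F 1 ≤ (sub I G hGne).val := thetaStar_le_val h0 _ hLP.ge
  have h6 := val_sub I G hGne
  rw [← hm'] at h6
  have h7 : m * (β * thetaStar F 1) ≤ m * I.val := by
    calc m * (β * thetaStar F 1) = β * m * thetaStar F 1 := by ring
      _ ≤ G.card * (sub I G hGne).val := mul_le_mul hn h5 hθ (Nat.cast_nonneg _)
      _ ≤ _ := h6
  exact le_of_mul_le_mul_left h7 hm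

/-- **a robust rounding to exact solutions implies continuity at one** -/
theorem cont_of_rounds [Nonempty S] (h : Rounds F) :
    Tendsto (theta F) (𝓝[<] 1) (𝓝 (theta F 1)) := by
  have hθ1 := thetaStar_le_one (F := F) (c := 1) le_rfl
  have hθ0 := thetaStar_nonneg (F := F) (c := 1) le_rfl
  have h1 : theta F 1 = thetaStar F 1 := min_eq_right hθ1
  rw [h1, Metric.tendsto_nhds]
  intro ε' hε'
  obtain ⟨ε, hε, hε1, hεε⟩ : ∃ ε : ℝ, 0 < ε ∧ ε ≤ 1 ∧ ε ≤ ε' :=
    ⟨min ε' 1, lt_min hε' one_pos, min_le_right _ _, min_le_left _ _⟩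
  obtain ⟨δ', hδ', N, R, hN, hR1, hR2⟩ := h (ε / 2) (by linarith)
  obtain ⟨δ, hδ0, hδ, hδδ⟩ : ∃ δ : ℝ, 0 < δ ∧ δ ≤ 1 / 2 ∧ δ ≤ δ' :=
    ⟨min δ' (1 / 2), lt_min hδ' (by norm_num), min_le_right _ _, min_le_left _ _⟩
  have h2 : ∀ᶠ c in 𝓝[<] (1 : ℝ), 1 - ε < c :=
    eventually_nhdsWithin_of_eventually_nhds (eventually_gt_nhds (by linarith))
  have h3 : ∀ᶠ c in 𝓝[<] (1 : ℝ), 1 - δ * ε / 8 < c :=
    eventually_nhdsWithin_of_eventually_nhds (eventually_gt_nhds (by
      have : 0 < δ * ε := mul_pos hδ0 hε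
      linarith))
  filter_upwards [h2, h3, self_mem_nhdsWithin] with c hc1 hc2 hc3
  have hc4 : c < 1 := hc3
  have hδε : 0 < δ * ε := mul_pos hδ0 hε
  have hB1 : (1 - ε / 2) * (1 - ε / 4) * thetaStar F 1 ≤ 1 := by
    have e1 : (1 - ε / 2) * (1 - ε / 4) ≤ 1 := by nlinarith
    have e2 : 0 ≤ (1 - ε / 2) * (1 - ε / 4) := mul_nonneg (by linarith) (by linarith)
    nlinarith
  have h4 : (1 - ε / 2) * (1 - ε / 4) * thetaStar F 1 ≤ thetaStar F c := by
    refine le_thetaStar hc4.le hB1 fun h0 I hI => ?_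
    obtain ⟨s, hs⟩ := exists_value (δ := δ * ε / 4) hI (by linarith)
    have h5 := round_val h0 s (ε := ε / 2) (by linarith) hδ0 hδ hs R hN hR1
      (fun f hf' x y hx hy hxy => hR2 f hf' x y hx hy fun j σ => (hxy j σ).trans hδδ)
    have e1 : δ * ε / 4 / δ = ε / 4 := by
      field_simp
    rw [e1] at h5
    exact h5
  have h5 : thetaStar F 1 - ε < thetaStar F c := by
    have e1 : 1 - (1 - ε / 2) * (1 - ε / 4) < ε := by nlinarith
    have e2 : 0 ≤ 1 - (1 - ε / 2) * (1 - ε / 4) := by nlinarith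
    nlinarith
  have h6 : thetaStar F c ≤ thetaStar F 1 := thetaStar_mono hc4.le
  rw [Real.dist_eq, abs_lt]
  unfold theta
  constructor
  · rcases min_choice c (thetaStar F c) with h | h <;> rw [h] <;> linarith
  · have := min_le_right c (thetaStar F c)
    linarith

end Pool.Agent.P8H87.LP
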